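import Mathlib
import Pool.Agent.Helper187.Leg.KA
import Pool.Agent.T6.H50.QN.LEG

/-! Legendre polynomials: bounds for `∑_{j<n} (2 j + 1) P_j`. -/

set_option autoImplicit false

open Real Finset

namespace Pool.Agent.L5helper98.RD

open Pool.Agent.Helper187.Leg Pool.Agent.Helper187.Leg.KA

theorem PL_eq (n : ℕ) (x : ℝ) : H50.QN.PL n x = leg n x := by
  induction n using Nat.twoStepInduction with
  | zero => rw [leg_zero]; rfl
  | one => rw [leg_one]; rfl
  | more n h0 h1 => rw [H50.QN.ModLEG.PL_succ, leg_add_two, h0, h1]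

theorem leg_at_one (n : ℕ) : leg n 1 = 1 := by
  rw [← PL_eq]; exact H50.QN.ModLEG.at_one n

theorem abs_leg_le_one (n : ℕ) {x : ℝ} (hx : |x| ≤ 1) : |leg n x| ≤ 1 := by
  rw [← PL_eq]; exact H50.QN.ModLEG.abs_le_one' n x hx

theorem leg_sq_int (n : ℕ) : ∫ x in (-1 : ℝ)..1, leg n x ^ 2 = 2 / (2 * n + 1) := by
  have := H50.QN.ModLEG.norm_sq n
  simp only [PL_eq] at this
  exact this

theorem leg_cont (n : ℕ) : Continuous (leg n) :=
  continuous_iff_continuousAt.2 fun x => (hasDerivAt_leg n x).continuousAt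

theorem dleg_cont (n : ℕ) : Continuous (dleg n) := by
  induction n using Nat.twoStepInduction with
  | zero =>
    have e : dleg 0 = fun _ => (0 : ℝ) := by funext y; exact dleg_zero y
    rw [e]; exact continuous_const
  | one =>
    have e : dleg 1 = fun _ => (1 : ℝ) := by funext y; exact dleg_one y
    rw [e]; exact continuous_const
  | more n h0 h1 =>
    have e : dleg (n + 2) = fun x => ((2 * (n : ℝ) + 3) * (leg (n + 1) x + x * dleg (n + 1) x) - (n + 1) * dleg n x)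
      / (n + 2) := by funext y; exact dleg_add_two n y
    rw [e]
    exact ((continuous_const.mul ((leg_cont _).add (continuous_id.mul h1))).sub
      (continuous_const.mul h0)).div_const _

/-- the kernel -/
noncomputable def SS (n : ℕ) (x : ℝ) : ℝ := ∑ j ∈ range n, (2 * (j : ℝ) + 1) * leg j x

theorem SS_zero (x : ℝ) : SS 0 x = 0 := by simp [SS]

theorem SS_succ (n : ℕ) (x : ℝ) : SS (n + 1) x = SS n x + (2 * (n : ℝ) + 1) * leg n x := by
  unfold SS; rw [sum_range_succ]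

theorem SS_cont (n : ℕ) : Continuous (SS n) :=
  continuous_finsetSum _ fun j _ => continuous_const.mul (leg_cont j)

theorem SS_eq (n : ℕ) (x : ℝ) : SS n x = (x + 1) * dleg n x - n * leg n x := by
  induction n with
  | zero => rw [SS_zero, dleg_zero]; simp
  | succ n ih =>
    obtain ⟨ha, hb⟩ := rel_ab x n
    rw [SS_succ, ih]
    push_cast
    linear_combination -ha - hb

theorem SS_eq' (n : ℕ) (x : ℝ) : SS (n + 1) x = dleg (n + 1) x + dleg n x := by
  obtain ⟨ha, hb⟩ := rel_ab x n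
  rw [SS_eq]
  push_cast
  linear_combination hb

theorem abs_SS_le (n : ℕ) {x : ℝ} (hx : |x| ≤ 1) : |SS n x| ≤ (n : ℝ) ^ 2 := by
  induction n with
  | zero => simp [SS_zero]
  | succ n ih =>
    rw [SS_succ]
    have h1 := abs_leg_le_one n hx
    have h2 : |(2 * (n : ℝ) + 1) * leg n x| ≤ 2 * n + 1 := by
      rw [abs_mul, abs_of_nonneg (by positivity : (0 : ℝ) ≤ 2 * n + 1)]
      exact mul_le_of_le_one_right (by positivity) h1
    refine (abs_add_le _ _).trans ?_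
    push_cast
    nlinarith

theorem abs_dleg_le (n : ℕ) {x : ℝ} (hx : |x| ≤ 1) : |dleg n x| ≤ (n : ℝ) * (n + 1) / 2 := by
  induction n with
  | zero => simp [dleg_zero]
  | succ n ih =>
    rw [(rel_ab x n).1]
    have h1 := abs_leg_le_one n hx
    have h2 : |((n : ℝ) + 1) * leg n x| ≤ n + 1 := by
      rw [abs_mul, abs_of_nonneg (by positivity : (0 : ℝ) ≤ (n : ℝ) + 1)]
      exact mul_le_of_le_one_right (by positivity) h1
    have h3 : |x * dleg n x| ≤ (n : ℝ) * (n + 1) / 2 := by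
      rw [abs_mul]
      exact (mul_le_of_le_one_left (abs_nonneg _) hx).trans ih
    refine (abs_add_le _ _).trans ?_
    push_cast
    linarith

theorem dleg_neg (n : ℕ) (x : ℝ) : |dleg n (-x)| = |dleg n x| := by
  induction n with
  | zero => simp [dleg_zero]
  | succ n _ =>
    have key : ∀ m : ℕ, dleg m (-x) = (-1) ^ (m + 1) * dleg m x := by
      intro m
      have h1 : HasDerivAt (fun y => leg m (-y)) (dleg m (-x) * (-1)) x :=
        (hasDerivAt_leg m (-x)).comp x (hasDerivAt_neg x)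
      have h2 : (fun y => leg m (-y)) = fun y => (-1) ^ m * leg m y := by
        funext y; exact leg_neg m y
      rw [h2] at h1
      have h3 := h1.unique ((hasDerivAt_leg m x).const_mul ((-1) ^ m))
      rw [pow_succ]
      linear_combination -h3
    rw [key, abs_mul, abs_pow, abs_neg, abs_one, one_pow, one_mul]

/-- Sonin's bounds on the right half -/
theorem sonin {n : ℕ} {ψ : ℝ} (h0 : 0 ≤ ψ) (h1 : ψ < π / 2) :
    U n ψ ^ 2 * (n + 1) ≤ 2 ∧ V n ψ ^ 2 * (n + 1) ≤ 2 * Q n ψ := by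
  have hc : 0 < cos ψ := cos_pos' (by rw [abs_of_nonneg h0]; exact h1)
  have h2 := So_anti n ⟨le_refl 0, by positivity⟩ ⟨h0, h1⟩ h0
  have h3 := So_zero_bound n
  have hQ := Q_pos n hc
  have hn : (0 : ℝ) < (n : ℝ) + 1 := by positivity
  have h4 : So n ψ * (n + 1) ≤ 2 := (mul_le_mul_of_nonneg_right h2 hn.le).trans h3
  have h5 : 0 ≤ V n ψ ^ 2 / Q n ψ := by positivity
  have h6 : 0 ≤ U n ψ ^ 2 := by positivity
  rw [So] at h4
  constructor
  · nlinarith
  · have h7 : V n ψ ^ 2 / Q n ψ * (n + 1) ≤ 2 := by nlinarith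
    have h8 : V n ψ ^ 2 * (n + 1) = V n ψ ^ 2 / Q n ψ * (n + 1) * Q n ψ := by field_simp
    rw [h8]
    exact mul_le_mul_of_nonneg_right h7 hQ.le

/-- the bound for the derivative, `w = √(cos ψ)` -/
theorem dleg_aux {n : ℕ} {ψ : ℝ} (h0 : 0 ≤ ψ) (h1 : ψ < π / 2) :
    |dleg n (sin ψ)| * √(cos ψ) ^ 3 ≤ 2 * √2 * √((n : ℝ) + 1) := by
  have hc : 0 < cos ψ := cos_pos' (by rw [abs_of_nonneg h0]; exact h1)
  have hc1 : cos ψ ≤ 1 := cos_le_one ψ
  have hn : (0 : ℝ) < (n : ℝ) + 1 := by positivity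
  obtain ⟨hU, hV⟩ := sonin (n := n) h0 h1
  set w := √(cos ψ) with hw
  have hw0 : 0 < w := Real.sqrt_pos.2 hc
  have hw2 : w ^ 2 = cos ψ := Real.sq_sqrt hc.le
  set r := √((n : ℝ) + 1) with hr
  have hr0 : 0 < r := Real.sqrt_pos.2 hn
  have hr2 : r ^ 2 = n + 1 := Real.sq_sqrt hn.le
  set s := √(2 : ℝ) with hs
  have hs0 : 0 < s := Real.sqrt_pos.2 (by norm_num)
  have hs2 : s ^ 2 = 2 := Real.sq_sqrt (by norm_num)
  have hx1 : |sin ψ| ≤ 1 := abs_sin_le_one ψ
  -- `|U| r ≤ s`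
  have bU : |U n ψ| * r ≤ s := by
    refine abs_le_of_sq_le_sq' ?_ hs0.le |>.2
    rw [mul_pow, sq_abs, hr2, hs2]
    exact hU
  by_cases hcase : 1 ≤ (n + 1) * cos ψ
  · -- middle region
    have hQ1 : Q n ψ ≤ (((n : ℝ) + 1 / 2) + 1 / (2 * cos ψ)) ^ 2 := by
      rw [Q]
      have : (((n : ℝ) + 1 / 2) + 1 / (2 * cos ψ)) ^ 2 =
          ((n : ℝ) + 1 / 2) ^ 2 + 1 / (4 * cos ψ ^ 2) + ((n : ℝ) + 1 / 2) / cos ψ := by
        field_simp; ring
      rw [this]
      have : 0 ≤ ((n : ℝ) + 1 / 2) / cos ψ := by positivity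
      linarith
    have hq0 : 0 < ((n : ℝ) + 1 / 2) + 1 / (2 * cos ψ) := by positivity
    have bV : |V n ψ| * r ≤ s * (((n : ℝ) + 1 / 2) + 1 / (2 * cos ψ)) := by
      refine abs_le_of_sq_le_sq' ?_ (by positivity) |>.2
      rw [mul_pow, sq_abs, hr2, mul_pow, hs2]
      exact hV.trans (by nlinarith)
    -- `cos^2 P' = V w + sin P / 2`
    have e1 : dleg n (sin ψ) * w ^ 4 = V n ψ * w + sin ψ * leg n (sin ψ) / 2 := by
      rw [V, G, ← hw]
      have : 1 - sin ψ ^ 2 = w ^ 4 := by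
        have := Real.sin_sq ψ
        rw [this, ← hw2]; ring
      rw [this]
      field_simp
      ring
    have e2 : |dleg n (sin ψ)| * w ^ 4 ≤ |V n ψ| * w + |leg n (sin ψ)| / 2 := by
      have : |dleg n (sin ψ)| * w ^ 4 = |dleg n (sin ψ) * w ^ 4| := by
        rw [abs_mul, abs_of_pos (by positivity : 0 < w ^ 4)]
      rw [this, e1]
      refine (abs_add_le _ _).trans ?_
      rw [abs_mul, abs_of_pos hw0, abs_div, abs_mul, abs_of_pos (by norm_num : (0 : ℝ) < 2)]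
      have := mul_le_of_le_one_left (abs_nonneg (leg n (sin ψ))) hx1
      linarith
    have e3 : |U n ψ| = |leg n (sin ψ)| * w := by
      rw [U, abs_mul, ← hw, abs_of_pos hw0]
    -- multiply by `w r`
    have e4 : |dleg n (sin ψ)| * w ^ 3 * (w ^ 2 * r) ≤ s * (((n : ℝ) + 1 / 2) + 1 / (2 * cos ψ)) * w ^ 2 + s / 2 := by
      have f1 : |dleg n (sin ψ)| * w ^ 3 * (w ^ 2 * r) = (|dleg n (sin ψ)| * w ^ 4) * (w * r) := by ring
      rw [f1]
      have f2 : (|V n ψ| * w + |leg n (sin ψ)| / 2) * (w * r) = (|V n ψ| * r) * w ^ 2 + (|U n ψ| * r) / 2 := by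
        rw [e3]; ring
      refine (mul_le_mul_of_nonneg_right e2 (by positivity)).trans ?_
      rw [f2]
      have := mul_le_mul_of_nonneg_right bV (by positivity : 0 ≤ w ^ 2)
      linarith
    have e5 : s * (((n : ℝ) + 1 / 2) + 1 / (2 * cos ψ)) * w ^ 2 + s / 2 ≤ s * (2 * (n + 1)) * w ^ 2 := by
      have f1 : s * (((n : ℝ) + 1 / 2) + 1 / (2 * cos ψ)) * w ^ 2 + s / 2 =
          s * ((n + 1 / 2) * cos ψ + 1) := by
        rw [hw2]; field_simp; ring
      rw [f1, hw2]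
      have f2 : ((n : ℝ) + 1 / 2) * cos ψ + 1 ≤ 2 * (n + 1) * cos ψ := by nlinarith
      calc s * ((n + 1 / 2) * cos ψ + 1) ≤ s * (2 * (n + 1) * cos ψ) := by gcongr
        _ = _ := by ring
    have e6 : |dleg n (sin ψ)| * w ^ 3 * (w ^ 2 * r) ≤ (2 * s * r) * (w ^ 2 * r) := by
      refine (e4.trans e5).trans (le_of_eq ?_)
      rw [← hr2]; ring
    exact le_of_mul_le_mul_right e6 (by positivity)
  · push Not at hcase
    have h5 := abs_dleg_le n hx1
    have h6 : w ^ 2 * r ^ 2 ≤ 1 := by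
      rw [hw2, hr2]; linarith
    have h7 : w * r ≤ 1 := by
      have : (w * r) ^ 2 ≤ 1 ^ 2 := by rw [mul_pow, one_pow]; exact h6
      exact (sq_le_sq₀ (by positivity) (by norm_num)).1 this
    have h8 : (n : ℝ) * (n + 1) / 2 ≤ r ^ 4 / 2 := by
      have : r ^ 4 = ((n : ℝ) + 1) ^ 2 := by rw [← hr2]; ring
      rw [this]
      nlinarith
    have h9 : (w * r) ^ 3 ≤ 1 := pow_le_one₀ (by positivity) h7
    have hs1 : 1 ≤ s := by nlinarith
    calc |dleg n (sin ψ)| * w ^ 3 ≤ r ^ 4 / 2 * w ^ 3 := by gcongr; linarith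
      _ = (w * r) ^ 3 * (r / 2) := by ring
      _ ≤ 1 * (r / 2) := by gcongr
      _ ≤ 2 * s * r := by nlinarith

theorem dleg_sin (n : ℕ) {ψ : ℝ} (h : |ψ| < π / 2) :
    |dleg n (sin ψ)| * √(cos ψ) ^ 3 ≤ 2 * √2 * √((n : ℝ) + 1) := by
  rcases le_total 0 ψ with h0 | h0
  · rw [abs_of_nonneg h0] at h
    exact dleg_aux h0 h
  · rw [abs_of_nonpos h0] at h
    have := dleg_aux (n := n) (ψ := -ψ) (by linarith) h
    rwa [sin_neg, cos_neg, dleg_neg] at this

/-- the bound for the derivative on `(0, 1)` -/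
theorem dleg_unit (n : ℕ) {u : ℝ} (h0 : 0 < u) (h1 : u < 1) :
    |dleg n (2 * u - 1)| ≤ √((n : ℝ) + 1) * (u * (1 - u)) ^ (-(3 / 4) : ℝ) := by
  have hx : |2 * u - 1| < 1 := by rw [abs_lt]; constructor <;> linarith
  obtain ⟨hx1, hx2⟩ := abs_lt.1 hx
  set ψ := arcsin (2 * u - 1) with hψ
  have hs : sin ψ = 2 * u - 1 := Real.sin_arcsin hx1.le hx2.le
  have hψ1 : |ψ| < π / 2 := by
    rw [abs_lt]
    exact ⟨Real.neg_pi_div_two_lt_arcsin.2 hx1, Real.arcsin_lt_pi_div_two.2 hx2⟩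
  have hc : 0 < cos ψ := cos_pos' hψ1
  have key := dleg_sin n hψ1
  rw [hs] at key
  have hu : 0 < u * (1 - u) := mul_pos h0 (by linarith)
  have hc2 : cos ψ = 2 * √(u * (1 - u)) := by
    have h3 : cos ψ ^ 2 = (2 * √(u * (1 - u))) ^ 2 := by
      rw [mul_pow, Real.sq_sqrt hu.le, Real.cos_sq', hs]; ring
    exact (pow_left_inj₀ hc.le (by positivity) (by norm_num)).1 h3
  have e1 : √(cos ψ) ^ 3 = 2 * √2 * (u * (1 - u)) ^ ((3 / 4) : ℝ) := by
    have hv : (0 : ℝ) ≤ u * (1 - u) := hu.le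
    have f1 : √(cos ψ) ^ 3 = (cos ψ) ^ ((3 / 2) : ℝ) := by
      rw [Real.sqrt_eq_rpow, ← Real.rpow_natCast, ← Real.rpow_mul hc.le]
      norm_num
    have f2 : (2 : ℝ) ^ ((3 / 2) : ℝ) = 2 * √2 := by
      rw [show ((3 / 2) : ℝ) = 1 + 1 / 2 by norm_num, Real.rpow_add (by norm_num), Real.rpow_one,
        ← Real.sqrt_eq_rpow]
    have f3 : √(u * (1 - u)) ^ ((3 / 2) : ℝ) = (u * (1 - u)) ^ ((3 / 4) : ℝ) := by
      rw [Real.sqrt_eq_rpow, ← Real.rpow_mul hv]
      norm_num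
    rw [f1, hc2, Real.mul_rpow (by norm_num) (Real.sqrt_nonneg _), f2, f3]
  rw [e1] at key
  have hp : 0 < (u * (1 - u)) ^ ((3 / 4) : ℝ) := Real.rpow_pos_of_pos hu _
  rw [Real.rpow_neg hu.le]
  have hs2 : 0 < 2 * √(2 : ℝ) := by positivity
  rw [← div_eq_mul_inv, le_div_iff₀ hp]
  have : |dleg n (2 * u - 1)| * (u * (1 - u)) ^ ((3 / 4) : ℝ) * (2 * √2) ≤ √((n : ℝ) + 1) * (2 * √2) := by
    linarith
  exact le_of_mul_le_mul_right this hs2

/-- the bound for the kernel -/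
theorem SS_unit (n : ℕ) {u : ℝ} (h0 : 0 < u) (h1 : u < 1) :
    |SS n (2 * u - 1)| ≤ 2 * √((n : ℝ) + 1) * (u * (1 - u)) ^ (-(3 / 4) : ℝ) := by
  cases n with
  | zero => rw [SS_zero, abs_zero]; positivity
  | succ n =>
    rw [SS_eq']
    have h2 := dleg_unit (n + 1) h0 h1
    have h3 := dleg_unit n h0 h1
    have h4 : √((n : ℝ) + 1) ≤ √(((n + 1 : ℕ) : ℝ) + 1) := Real.sqrt_le_sqrt (by push_cast; linarith)
    have hu : 0 < u * (1 - u) := mul_pos h0 (by linarith)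
    have hp : 0 < (u * (1 - u)) ^ (-(3 / 4) : ℝ) := Real.rpow_pos_of_pos hu _
    refine (abs_add_le _ _).trans ?_
    nlinarith

end Pool.Agent.L5helper98.RD
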