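import Mathlib
import Pool.Agent.L5helper98.RD.A
import Pool.Agent.Y282.RB.B1

/-! The kernel formula on the half-line. -/

set_option autoImplicit false

open Real Finset MeasureTheory intervalIntegral

namespace Pool.Agent.L5helper98.RD

open Pool.Agent.Helper187.Leg Pool.Agent.Helper187.Leg.KA

theorem cdiv (t : ℝ) {a : ℝ} (ha : 0 < a) (ha1 : a ≤ 1) {P F : ℝ → ℝ} (hP : Continuous P) (hF : Continuous F) :
    ContinuousOn (fun u => P (2 * u - 1) * (F (t / u) / u)) (Set.uIcc a 1) := by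
  rw [Set.uIcc_of_le ha1]
  have h0 : ∀ u ∈ Set.Icc a 1, u ≠ 0 := fun u hu => (lt_of_lt_of_le ha hu.1).ne'
  have h1 : ContinuousOn (fun u : ℝ => t / u) (Set.Icc a 1) :=
    continuousOn_const.div continuousOn_id h0
  refine ContinuousOn.mul (hP.comp (by fun_prop)).continuousOn ?_
  exact (hF.comp_continuousOn h1).div continuousOn_id h0

theorem step {k : ℕ} {X G : ℝ → ℝ} (hX : ContDiff ℝ (⊤ : ℕ∞) X) (hG : Continuous G) {R : ℝ}
    (hR : ∀ x, R ≤ x → X x = 0) (h : ∀ x, x * deriv X x - (k : ℝ) * X x = G x) {t a : ℝ}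
    (ha : 0 < a) (ha1 : a ≤ 1) (hta : R ≤ t / a) :
    ∫ u in a..1, leg k (2 * u - 1) * (G (t / u) / u) =
      -X t + ∫ u in a..1, SS k (2 * u - 1) * (X (t / u) / u) := by
  have hd : ∀ u ∈ Set.uIcc a 1, HasDerivAt (fun u => leg k (2 * u - 1) * X (t / u))
      (SS k (2 * u - 1) * (X (t / u) / u) - leg k (2 * u - 1) * (G (t / u) / u)) u := by
    intro u hu
    rw [Set.uIcc_of_le ha1] at hu
    have hu0 : u ≠ 0 := (lt_of_lt_of_le ha hu.1).ne'
    have h1 : HasDerivAt (fun u : ℝ => 2 * u - 1) 2 u := by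
      simpa using ((hasDerivAt_id u).const_mul (2 : ℝ)).sub_const 1
    have h2 : HasDerivAt (fun u => leg k (2 * u - 1)) (dleg k (2 * u - 1) * 2) u :=
      (hasDerivAt_leg k (2 * u - 1)).comp u h1
    have h3 : HasDerivAt (fun u : ℝ => t / u) (-(t / u ^ 2)) u := by
      have := (hasDerivAt_inv hu0).const_mul t
      refine (this.congr_deriv ?_).congr_of_eventuallyEq ?_
      · field_simp
      · exact Filter.Eventually.of_forall fun y => by simp [div_eq_mul_inv]
    have h4 : HasDerivAt X (deriv X (t / u)) (t / u) :=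
      ((hX.differentiable (by norm_num)) (t / u)).hasDerivAt
    have h5 : HasDerivAt (fun u => X (t / u)) (deriv X (t / u) * (-(t / u ^ 2))) u :=
      h4.comp u h3
    refine (h2.mul h5).congr_deriv ?_
    rw [← h (t / u), SS_eq]
    field_simp
    ring
  have hc1 := (cdiv t ha ha1 (SS_cont k) hX.continuous)
  have hc2 := (cdiv t ha ha1 (leg_cont k) hG)
  have hi1 := hc1.intervalIntegrable (μ := volume)
  have hi2 := hc2.intervalIntegrable (μ := volume)
  have h6 := integral_eq_sub_of_hasDerivAt hd (hi1.sub hi2)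
  rw [intervalIntegral.integral_sub hi1 hi2, hR _ hta, mul_zero, sub_zero] at h6
  have e1 : (2 * (1 : ℝ) - 1) = 1 := by norm_num
  rw [e1, leg_at_one, one_mul, div_one] at h6
  linarith

/-- the kernel formula -/
theorem kform {n : ℕ} {X G : ℕ → ℝ → ℝ} {R : ℝ} (hX : ∀ j, ContDiff ℝ (⊤ : ℕ∞) (X j))
    (hG : ∀ j, ContDiff ℝ (⊤ : ℕ∞) (G j)) (hXR : ∀ j x, R ≤ x → X j x = 0)
    (h1 : ∀ j, j < n → ∀ x, x * deriv (X j) x - (j : ℝ) * X j x = G (j + 1) x)
    (h2 : ∀ j, j < n → ∀ x, x * deriv (X j) x + ((j : ℝ) + 1) * X j x = G j x) {t a : ℝ}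
    (ha : 0 < a) (ha1 : a ≤ 1) (hta : R ≤ t / a) :
    ∀ k, k ≤ n → G 0 t = G k t - ∫ u in a..1, SS k (2 * u - 1) * (G k (t / u) / u) := by
  intro k
  induction k with
  | zero =>
    intro _
    simp [SS_zero]
  | succ k ih =>
    intro hk
    have hk' : k < n := by omega
    rw [ih (by omega)]
    have e0 : ∀ x, G k x = G (k + 1) x + (2 * (k : ℝ) + 1) * X k x := by
      intro x
      rw [← h1 k hk' x, ← h2 k hk' x]
      ring
    have hs := step (hX k) (hG (k + 1)).continuous (hXR k) (h1 k hk') ha ha1 hta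
    have i1 := (cdiv t ha ha1 (SS_cont k) (hG (k + 1)).continuous).intervalIntegrable (μ := volume)
    have i2 := (cdiv t ha ha1 (SS_cont k) (hX k).continuous).intervalIntegrable (μ := volume)
    have i3 := (cdiv t ha ha1 (leg_cont k) (hG (k + 1)).continuous).intervalIntegrable (μ := volume)
    have e1 : ∫ u in a..1, SS k (2 * u - 1) * (G k (t / u) / u) =
        (∫ u in a..1, SS k (2 * u - 1) * (G (k + 1) (t / u) / u)) +
          (2 * (k : ℝ) + 1) * ∫ u in a..1, SS k (2 * u - 1) * (X k (t / u) / u) := by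
      rw [← intervalIntegral.integral_const_mul, ← intervalIntegral.integral_add i1 (i2.const_mul _)]
      refine intervalIntegral.integral_congr fun u _ => ?_
      simp only [e0]
      ring
    have e2 : ∫ u in a..1, SS (k + 1) (2 * u - 1) * (G (k + 1) (t / u) / u) =
        (∫ u in a..1, SS k (2 * u - 1) * (G (k + 1) (t / u) / u)) +
          (2 * (k : ℝ) + 1) * ∫ u in a..1, leg k (2 * u - 1) * (G (k + 1) (t / u) / u) := by
      rw [← intervalIntegral.integral_const_mul, ← intervalIntegral.integral_add i1 (i3.const_mul _)]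
      refine intervalIntegral.integral_congr fun u _ => ?_
      simp only [SS_succ]
      ring
    rw [e1, e2, hs, e0 t]
    ring

/-- the kernel formula for `x ^ n h^(n) ↦ (x ^ n h)^(n)` -/
theorem kform' (n : ℕ) {h : ℝ → ℝ} (hh : ContDiff ℝ (⊤ : ℕ∞) h) (hR : ∃ R : ℝ, ∀ x, R ≤ x → h x = 0) :
    ∃ R : ℝ, 0 < R ∧ (∀ x, R ≤ x → x ^ n * iteratedDeriv n h x = 0) ∧
      (∀ x, R ≤ x → iteratedDeriv n (fun t => t ^ n * h t) x = 0) ∧
      Continuous (fun x => x ^ n * iteratedDeriv n h x) ∧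
      Continuous (iteratedDeriv n (fun t => t ^ n * h t)) ∧
      ∀ t a : ℝ, 0 < a → a ≤ 1 → R ≤ t / a → iteratedDeriv n (fun t => t ^ n * h t) t =
        t ^ n * iteratedDeriv n h t -
          ∫ u in a..1, SS n (2 * u - 1) * (((t / u) ^ n * iteratedDeriv n h (t / u)) / u) := by
  obtain ⟨X, G, R, hR0, hX, hG, hXR, hGR, hGn, hG0, h1, h2⟩ := Pool.Agent.Y282.RB.B1.main n h hh hR
  have e1 : (fun x => x ^ n * iteratedDeriv n h x) = G n := by funext x; exact (hGn x).symm
  have e2 : iteratedDeriv n (fun t => t ^ n * h t) = G 0 := by funext x; exact (hG0 x).symm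
  refine ⟨R, hR0, fun x hx => ?_, fun x hx => ?_, ?_, ?_, fun t a ha ha1 hta => ?_⟩
  · rw [← hGn]; exact hGR n x hx
  · rw [← hG0]; exact hGR 0 x hx
  · rw [e1]; exact (hG n).continuous
  · rw [e2]; exact (hG 0).continuous
  · have := kform hX hG hXR h1 h2 ha ha1 hta n le_rfl
    rw [← hG0, this, hGn t]
    simp only [hGn]

end Pool.Agent.L5helper98.RD
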