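import Mathlib
import Pool.Agent.L5helper98.RD.B

/-! Minkowski's inequality for dilation kernels. -/

set_option autoImplicit false

open MeasureTheory Set ENNReal

namespace Pool.Agent.L5helper98.RD

open Pool.Agent.Helper187.Leg Pool.Agent.Helper187.Leg.KA

theorem lscale {u : ℝ} (hu : 0 < u) {φ : ℝ → ℝ≥0∞} (hφ : Measurable φ) :
    ∫⁻ t in Ioi (0 : ℝ), φ (t / u) = ENNReal.ofReal u * ∫⁻ t in Ioi (0 : ℝ), φ t := by
  have h1 : ∫⁻ t in Ioi (0 : ℝ), φ (t / u) = ∫⁻ t : ℝ, (Ioi (0 : ℝ)).indicator φ (u⁻¹ * t) := by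
    rw [← lintegral_indicator measurableSet_Ioi]
    refine lintegral_congr fun t => ?_
    by_cases ht : 0 < t
    · have h2 : t ∈ Ioi (0 : ℝ) := ht
      have h3 : u⁻¹ * t ∈ Ioi (0 : ℝ) := mul_pos (inv_pos.2 hu) ht
      rw [indicator_of_mem h2, indicator_of_mem h3, div_eq_mul_inv, mul_comm]
    · have h2 : t ∉ Ioi (0 : ℝ) := ht
      have h3 : u⁻¹ * t ∉ Ioi (0 : ℝ) := by
        intro h
        exact ht ((mul_pos_iff_of_pos_left (inv_pos.2 hu)).1 h)
      rw [indicator_of_notMem h2, indicator_of_notMem h3]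
  have h4 : ∫⁻ t : ℝ, (Ioi (0 : ℝ)).indicator φ (u⁻¹ * t) =
      ∫⁻ t, (Ioi (0 : ℝ)).indicator φ t ∂(Measure.map (u⁻¹ * ·) volume) := by
    rw [lintegral_map (hφ.indicator measurableSet_Ioi) (measurable_const_mul _)]
  rw [h1, h4, Real.map_volume_mul_left (inv_pos.2 hu).ne', lintegral_smul_measure,
    lintegral_indicator measurableSet_Ioi, inv_inv, abs_of_pos hu, smul_eq_mul]

theorem mink {q : ℝ} (hq : 1 < q) {k f : ℝ → ℝ≥0∞} (hk : Measurable k) (hf : Measurable f) :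
    ∫⁻ t in Ioi (0 : ℝ), (∫⁻ u in Ioo (0 : ℝ) 1, k u * (f (t / u) * ENNReal.ofReal u⁻¹)) ^ q ≤
      (∫⁻ u in Ioo (0 : ℝ) 1, k u * ENNReal.ofReal (u ^ (1 / q - 1))) ^ q *
        ∫⁻ t in Ioi (0 : ℝ), f t ^ q := by
  have hq0 : 0 < q := by linarith
  have hcj : q.HolderConjugate (q / (q - 1)) := Real.HolderConjugate.conjExponent hq
  set w : ℝ → ℝ≥0∞ := fun u => k u * ENNReal.ofReal (u ^ (1 / q - 1)) with hw
  have hwm : Measurable w := hk.mul (ENNReal.measurable_ofReal.comp (measurable_id.pow_const _))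
  set ν : Measure ℝ := (volume.restrict (Ioo (0 : ℝ) 1)).withDensity w with hν
  set F : ℝ → ℝ → ℝ≥0∞ := fun t u => f (t / u) * ENNReal.ofReal (u ^ (-(1 / q))) with hF
  have hFm : Measurable (Function.uncurry F) := by
    refine (hf.comp (measurable_fst.div measurable_snd)).mul ?_
    exact ENNReal.measurable_ofReal.comp (measurable_snd.pow_const _)
  have hFu : ∀ t, Measurable (F t) := fun t => hFm.comp (measurable_const.prodMk measurable_id)
  have hmass : ν univ = ∫⁻ u in Ioo (0 : ℝ) 1, w u := by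
    rw [hν, withDensity_apply _ MeasurableSet.univ, Measure.restrict_univ]
  have hint : ∀ t, ∫⁻ u in Ioo (0 : ℝ) 1, k u * (f (t / u) * ENNReal.ofReal u⁻¹) = ∫⁻ u, F t u ∂ν := by
    intro t
    rw [hν, lintegral_withDensity_eq_lintegral_mul _ hwm (hFu t)]
    refine setLIntegral_congr_fun measurableSet_Ioo fun u hu => ?_
    have hu0 : 0 < u := hu.1
    simp only [Pi.mul_apply, hw, hF]
    have e : ENNReal.ofReal u⁻¹ = ENNReal.ofReal (u ^ (1 / q - 1)) * ENNReal.ofReal (u ^ (-(1 / q))) := by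
      rw [← ENNReal.ofReal_mul (by positivity), ← Real.rpow_add hu0]
      congr 1
      rw [show 1 / q - 1 + -(1 / q) = -1 by ring, Real.rpow_neg_one]
    rw [e]
    ring
  have hJ : ∀ t, (∫⁻ u, F t u ∂ν) ^ q ≤ (ν univ) ^ (q - 1) * ∫⁻ u, F t u ^ q ∂ν := by
    intro t
    have h1 := ENNReal.lintegral_mul_le_Lp_mul_Lq ν hcj (hFu t).aemeasurable
      (aemeasurable_const (b := (1 : ℝ≥0∞)))
    simp only [Pi.mul_apply, mul_one, ENNReal.one_rpow, lintegral_const, one_mul] at h1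
    have h2 := ENNReal.rpow_le_rpow h1 hq0.le
    rw [ENNReal.mul_rpow_of_nonneg _ _ hq0.le, ← ENNReal.rpow_mul, ← ENNReal.rpow_mul,
      one_div_mul_cancel hq0.ne', ENNReal.rpow_one] at h2
    have e : 1 / (q / (q - 1)) * q = q - 1 := by field_simp
    rw [e] at h2
    rw [mul_comm]
    exact h2
  have hin : ∀ u ∈ Ioo (0 : ℝ) 1, ∫⁻ t in Ioi (0 : ℝ), F t u ^ q = ∫⁻ t in Ioi (0 : ℝ), f t ^ q := by
    intro u hu
    have hu0 : 0 < u := hu.1
    have e : ∀ t, F t u ^ q = ENNReal.ofReal u⁻¹ * (fun s => f s ^ q) (t / u) := by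
      intro t
      simp only [hF]
      rw [ENNReal.mul_rpow_of_nonneg _ _ hq0.le, ENNReal.ofReal_rpow_of_pos (by positivity),
        ← Real.rpow_mul hu0.le]
      have : -(1 / q) * q = -1 := by field_simp
      rw [this, Real.rpow_neg_one, mul_comm]
    simp_rw [e]
    rw [lintegral_const_mul' _ _ ENNReal.ofReal_ne_top, lscale hu0 (hf.pow_const q), ← mul_assoc,
      ← ENNReal.ofReal_mul (by positivity), inv_mul_cancel₀ hu0.ne', ENNReal.ofReal_one, one_mul]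
  calc ∫⁻ t in Ioi (0 : ℝ), (∫⁻ u in Ioo (0 : ℝ) 1, k u * (f (t / u) * ENNReal.ofReal u⁻¹)) ^ q
      = ∫⁻ t in Ioi (0 : ℝ), (∫⁻ u, F t u ∂ν) ^ q := by simp_rw [hint]
    _ ≤ ∫⁻ t in Ioi (0 : ℝ), (ν univ) ^ (q - 1) * ∫⁻ u, F t u ^ q ∂ν := lintegral_mono fun t => hJ t
    _ = (ν univ) ^ (q - 1) * ∫⁻ t in Ioi (0 : ℝ), ∫⁻ u, F t u ^ q ∂ν := by
        rw [lintegral_const_mul]
        exact (hFm.pow_const q).lintegral_prod_right'
    _ = (ν univ) ^ (q - 1) * ∫⁻ u, (∫⁻ t in Ioi (0 : ℝ), F t u ^ q) ∂ν := by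
        rw [lintegral_lintegral_swap]
        exact (hFm.pow_const q).aemeasurable
    _ = (ν univ) ^ (q - 1) * ∫⁻ _u, (∫⁻ t in Ioi (0 : ℝ), f t ^ q) ∂ν := by
        congr 1
        refine lintegral_congr_ae ?_
        have h3 : ∀ᵐ u ∂ν, u ∈ Ioo (0 : ℝ) 1 := by
          have h4 : ∀ᵐ u ∂(volume.restrict (Ioo (0 : ℝ) 1)), u ∈ Ioo (0 : ℝ) 1 :=
            ae_restrict_mem measurableSet_Ioo
          exact (withDensity_absolutelyContinuous _ _).ae_le h4
        filter_upwards [h3] with u hu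
        exact hin u hu
    _ = (∫⁻ u in Ioo (0 : ℝ) 1, w u) ^ q * ∫⁻ t in Ioi (0 : ℝ), f t ^ q := by
        rw [lintegral_const, hmass, mul_comm (∫⁻ t in Ioi (0 : ℝ), f t ^ q), ← mul_assoc]
        congr 1
        have := ENNReal.rpow_add_of_nonneg (x := ∫⁻ u in Ioo (0 : ℝ) 1, w u) (q - 1) 1 (by linarith)
          zero_le_one
        rw [ENNReal.rpow_one, sub_add_cancel] at this
        rw [this]

end Pool.Agent.L5helper98.RD
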