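import Mathlib
import Pool.Agent.L5helper98.RD.B

/-! The `L¹` norm of the Legendre polynomials. -/

set_option autoImplicit false

open Real MeasureTheory intervalIntegral

namespace Pool.Agent.L5helper98.RD

open Pool.Agent.Helper187.Leg Pool.Agent.Helper187.Leg.KA

theorem U_sq_le (n : ℕ) {ψ : ℝ} (h : |ψ| < π / 2) : U n ψ ^ 2 * (n + 1) ≤ 2 := by
  rcases le_total 0 ψ with h0 | h0
  · rw [abs_of_nonneg h0] at h
    exact (sonin (n := n) h0 h).1
  · rw [abs_of_nonpos h0] at h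
    have h1 := (sonin (n := n) (ψ := -ψ) (by linarith) h).1
    have e : U n (-ψ) ^ 2 = U n ψ ^ 2 := by
      rw [← sq_abs (U n (-ψ)), ← sq_abs (U n ψ)]
      congr 1
      rw [U, U, sin_neg, cos_neg, abs_mul, abs_mul, abs_leg_neg]
    rwa [e] at h1

theorem sq_cos_le (n : ℕ) {ψ : ℝ} (h : |ψ| ≤ π / 2) : leg n (sin ψ) ^ 2 * cos ψ ≤ 2 / (n + 1) := by
  have hn : (0 : ℝ) < (n : ℝ) + 1 := by positivity
  rcases h.lt_or_eq with h | h
  · have hc := cos_pos' h
    have := U_sq_le n h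
    rw [U, mul_pow, Real.sq_sqrt hc.le] at this
    rwa [le_div_iff₀ hn]
  · have hc : cos ψ = 0 := by
      rcases (abs_eq (by positivity)).1 h with h | h
      · rw [h, cos_pi_div_two]
      · rw [h, cos_neg, cos_pi_div_two]
    rw [hc, mul_zero]
    positivity

theorem subs {F : ℝ → ℝ} (hF : Continuous F) :
    ∫ x in (-1 : ℝ)..1, F x = ∫ ψ in (-(π / 2))..(π / 2), F (sin ψ) * cos ψ := by
  have hsub := intervalIntegral.integral_comp_mul_deriv (a := -(π / 2)) (b := π / 2)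
    (f := sin) (f' := cos) (g := F) (fun x _ => Real.hasDerivAt_sin x)
    Real.continuous_cos.continuousOn hF
  rw [Real.sin_neg, Real.sin_pi_div_two] at hsub
  rw [← hsub]
  rfl

theorem leg_L1 (n : ℕ) : (2 / 15) / √((n : ℝ) + 1) ≤ ∫ x in (-1 : ℝ)..1, |leg n x| := by
  have hn : (0 : ℝ) < (n : ℝ) + 1 := by positivity
  set r := √((n : ℝ) + 1) with hr
  have hr0 : 0 < r := Real.sqrt_pos.2 hn
  have hr2 : r ^ 2 = n + 1 := Real.sq_sqrt hn.le
  have hpi := Real.pi_gt_three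
  set b : ℝ := π / 2 - 1 / 12 with hb
  have hb0 : 0 < b := by rw [hb]; linarith
  have hb1 : b ≤ π / 2 := by rw [hb]; linarith
  have c1 : Continuous fun ψ => leg n (sin ψ) ^ 2 * cos ψ :=
    (((leg_cont n).comp continuous_sin).pow 2).mul continuous_cos
  have c2 : Continuous fun ψ => |leg n (sin ψ)| * cos ψ :=
    (((leg_cont n).comp continuous_sin).abs).mul continuous_cos
  have e1 : ∫ ψ in (-(π / 2))..(π / 2), leg n (sin ψ) ^ 2 * cos ψ = 2 / (2 * (n : ℝ) + 1) :=
    (subs (F := fun x => leg n x ^ 2) ((leg_cont n).pow 2)).symm.trans (leg_sq_int n)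
  rw [subs (F := fun x => |leg n x|) (leg_cont n).abs]
  have s1 : ∫ ψ in (-(π / 2))..(π / 2), leg n (sin ψ) ^ 2 * cos ψ =
      (∫ ψ in (-(π / 2))..(-b), leg n (sin ψ) ^ 2 * cos ψ) + (∫ ψ in (-b)..b, leg n (sin ψ) ^ 2 * cos ψ) +
        ∫ ψ in b..(π / 2), leg n (sin ψ) ^ 2 * cos ψ := by
    rw [integral_add_adjacent_intervals (c1.intervalIntegrable _ _) (c1.intervalIntegrable _ _),
      integral_add_adjacent_intervals (c1.intervalIntegrable _ _) (c1.intervalIntegrable _ _)]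
  have s2 : ∫ ψ in (-(π / 2))..(π / 2), |leg n (sin ψ)| * cos ψ =
      (∫ ψ in (-(π / 2))..(-b), |leg n (sin ψ)| * cos ψ) + (∫ ψ in (-b)..b, |leg n (sin ψ)| * cos ψ) +
        ∫ ψ in b..(π / 2), |leg n (sin ψ)| * cos ψ := by
    rw [integral_add_adjacent_intervals (c2.intervalIntegrable _ _) (c2.intervalIntegrable _ _),
      integral_add_adjacent_intervals (c2.intervalIntegrable _ _) (c2.intervalIntegrable _ _)]
  have o1 : ∫ ψ in b..(π / 2), leg n (sin ψ) ^ 2 * cos ψ ≤ (1 / 12) * (2 / (n + 1)) := by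
    have : ∫ ψ in b..(π / 2), leg n (sin ψ) ^ 2 * cos ψ ≤ ∫ _ψ in b..(π / 2), (2 / ((n : ℝ) + 1)) := by
      refine integral_mono_on hb1 (c1.intervalIntegrable _ _) (by simp) fun ψ hψ => ?_
      exact sq_cos_le n (by rw [abs_of_nonneg (hb0.le.trans hψ.1)]; exact hψ.2)
    refine this.trans (le_of_eq ?_)
    rw [intervalIntegral.integral_const, smul_eq_mul, hb]
    ring
  have o2 : ∫ ψ in (-(π / 2))..(-b), leg n (sin ψ) ^ 2 * cos ψ ≤ (1 / 12) * (2 / (n + 1)) := by
    have : ∫ ψ in (-(π / 2))..(-b), leg n (sin ψ) ^ 2 * cos ψ ≤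
        ∫ _ψ in (-(π / 2))..(-b), (2 / ((n : ℝ) + 1)) := by
      refine integral_mono_on (by linarith) (c1.intervalIntegrable _ _) (by simp) fun ψ hψ => ?_
      exact sq_cos_le n (abs_le.2 ⟨hψ.1, by linarith [hψ.2]⟩)
    refine this.trans (le_of_eq ?_)
    rw [intervalIntegral.integral_const, smul_eq_mul, hb]
    ring
  have p1 : 0 ≤ ∫ ψ in b..(π / 2), |leg n (sin ψ)| * cos ψ := by
    refine integral_nonneg hb1 fun ψ hψ => mul_nonneg (abs_nonneg _) ?_
    exact cos_nonneg_of_mem_Icc ⟨by linarith [hψ.1], hψ.2⟩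
  have p2 : 0 ≤ ∫ ψ in (-(π / 2))..(-b), |leg n (sin ψ)| * cos ψ := by
    refine integral_nonneg (by linarith) fun ψ hψ => mul_nonneg (abs_nonneg _) ?_
    exact cos_nonneg_of_mem_Icc ⟨hψ.1, by linarith [hψ.2]⟩
  -- the middle
  have hs : (83 / 1000 : ℝ) ≤ sin (1 / 12) := by
    have := Real.sin_gt_sub_cube (x := 1 / 12) (by norm_num)
    refine le_trans ?_ this.le
    norm_num
  have mid : ∫ ψ in (-b)..b, leg n (sin ψ) ^ 2 * cos ψ ≤ (491 / 100) / r * ∫ ψ in (-b)..b, |leg n (sin ψ)| * cos ψ := by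
    rw [← intervalIntegral.integral_const_mul]
    refine integral_mono_on (by linarith) (c1.intervalIntegrable _ _)
      ((c2.intervalIntegrable _ _).const_mul _) fun ψ hψ => ?_
    have habs : |ψ| ≤ b := abs_le.2 hψ
    have hcos : (83 / 1000 : ℝ) ≤ cos ψ := by
      have h1 : cos b ≤ cos ψ := by
        rw [← cos_abs ψ]
        exact cos_le_cos_of_nonneg_of_le_pi (abs_nonneg _) (by linarith) habs
      have h2 : cos b = sin (1 / 12) := by rw [hb, cos_pi_div_two_sub]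
      linarith
    have hc0 : 0 < cos ψ := by linarith
    have h3 := sq_cos_le n (habs.trans hb1)
    have h4 : |leg n (sin ψ)| ≤ (491 / 100) / r := by
      rw [le_div_iff₀ hr0]
      refine abs_le_of_sq_le_sq' ?_ (by norm_num) |>.2
      rw [mul_pow, sq_abs, hr2]
      have h5 : leg n (sin ψ) ^ 2 ≤ (2 / (n + 1)) / (83 / 1000) := by
        rw [le_div_iff₀ (by norm_num)]
        refine le_trans ?_ h3
        exact mul_le_mul_of_nonneg_left hcos (sq_nonneg _)
      calc leg n (sin ψ) ^ 2 * (n + 1) ≤ (2 / (n + 1)) / (83 / 1000) * (n + 1) := by gcongr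
        _ = 2000 / 83 := by field_simp; norm_num
        _ ≤ (491 / 100) ^ 2 := by norm_num
    have h6 : leg n (sin ψ) ^ 2 * cos ψ = |leg n (sin ψ)| * (|leg n (sin ψ)| * cos ψ) := by
      rw [← sq_abs]; ring
    rw [h6]
    exact mul_le_mul_of_nonneg_right h4 (mul_nonneg (abs_nonneg _) hc0.le)
  have tot : 2 / (2 * (n : ℝ) + 1) ≤ (1 / 12) * (2 / (n + 1)) +
      (491 / 100) / r * (∫ ψ in (-b)..b, |leg n (sin ψ)| * cos ψ) + (1 / 12) * (2 / (n + 1)) := by
    rw [← e1, s1]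
    linarith
  rw [s2]
  have l1 : (1 : ℝ) / (n + 1) ≤ 2 / (2 * (n : ℝ) + 1) := by
    rw [div_le_div_iff₀ hn (by positivity)]; linarith
  have l2 : (2 / 3 : ℝ) * (1 / (n + 1)) ≤ (491 / 100) / r * (∫ ψ in (-b)..b, |leg n (sin ψ)| * cos ψ) := by
    have : (2 : ℝ) / (n + 1) = 2 * (1 / (n + 1)) := by ring
    rw [this] at tot
    linarith
  have l3 : (2 / 15) / r ≤ ∫ ψ in (-b)..b, |leg n (sin ψ)| * cos ψ := by
    have h7 : (1 : ℝ) / (n + 1) = 1 / r ^ 2 := by rw [hr2]
    rw [h7] at l2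
    rw [div_le_iff₀ hr0]
    have h8 : (2 / 3 : ℝ) * (1 / r ^ 2) * r ^ 2 ≤
        (491 / 100) / r * (∫ ψ in (-b)..b, |leg n (sin ψ)| * cos ψ) * r ^ 2 :=
      mul_le_mul_of_nonneg_right l2 (by positivity)
    have h9 : (2 / 3 : ℝ) * (1 / r ^ 2) * r ^ 2 = 2 / 3 := by field_simp
    have h10 : (491 / 100) / r * (∫ ψ in (-b)..b, |leg n (sin ψ)| * cos ψ) * r ^ 2 =
        (491 / 100) * ((∫ ψ in (-b)..b, |leg n (sin ψ)| * cos ψ) * r) := by field_simp
    rw [h9, h10] at h8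
    linarith
  linarith

theorem leg_L1' (n : ℕ) : (1 / 15) / √((n : ℝ) + 1) ≤ ∫ t in (0 : ℝ)..1, |leg n (2 * t - 1)| := by
  have h1 : ∫ t in (0 : ℝ)..1, |leg n (2 * t - 1)| = (1 / 2) * ∫ x in (-1 : ℝ)..1, |leg n x| := by
    have := intervalIntegral.integral_comp_mul_sub (a := 0) (b := 1) (fun x => |leg n x|)
      (c := 2) (by norm_num) 1
    rw [this]
    norm_num
  rw [h1]
  have h2 := leg_L1 n
  have h3 : (1 / 15) / √((n : ℝ) + 1) = (1 / 2) * ((2 / 15) / √((n : ℝ) + 1)) := by ring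
  rw [h3]
  linarith

/-- the image of `t ^ n` on the unit interval -/
theorem leg_id (n : ℕ) {t : ℝ} (h0 : 0 < t) (h1 : t ≤ 1) :
    leg n (2 * t - 1) = t ^ n - ∫ u in t..1, SS n (2 * u - 1) * ((t / u) ^ n / u) := by
  have hd : ∀ u ∈ Set.uIcc t 1, HasDerivAt (fun u => leg n (2 * u - 1) * (t / u) ^ n)
      (SS n (2 * u - 1) * ((t / u) ^ n / u)) u := by
    intro u hu
    rw [Set.uIcc_of_le h1] at hu
    have hu0 : 0 < u := lt_of_lt_of_le h0 hu.1
    have a1 : HasDerivAt (fun u : ℝ => 2 * u - 1) 2 u := by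
      simpa using ((hasDerivAt_id u).const_mul (2 : ℝ)).sub_const 1
    have a2 : HasDerivAt (fun u => leg n (2 * u - 1)) (dleg n (2 * u - 1) * 2) u :=
      (hasDerivAt_leg n (2 * u - 1)).comp u a1
    have a3 : HasDerivAt (fun u : ℝ => t / u) (-(t / u ^ 2)) u := by
      have := (hasDerivAt_inv hu0.ne').const_mul t
      refine (this.congr_deriv ?_).congr_of_eventuallyEq ?_
      · field_simp
      · exact Filter.Eventually.of_forall fun y => by simp [div_eq_mul_inv]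
    have a4 := a3.pow n
    refine (a2.mul a4).congr_deriv ?_
    rw [SS_eq]
    simp only [Pi.pow_apply]
    cases n with
    | zero => simp; field_simp
    | succ n =>
      simp only [Nat.add_sub_cancel]
      push_cast
      rw [pow_succ]
      field_simp
      ring
  have hc : ContinuousOn (fun u => SS n (2 * u - 1) * ((t / u) ^ n / u)) (Set.uIcc t 1) :=
    cdiv t h0 h1 (SS_cont n) (continuous_pow n)
  have h6 := integral_eq_sub_of_hasDerivAt hd (hc.intervalIntegrable (μ := volume))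
  have e1 : (2 * (1 : ℝ) - 1) = 1 := by norm_num
  rw [e1, leg_at_one, one_mul, div_one, div_self h0.ne', one_pow, mul_one] at h6
  linarith

end Pool.Agent.L5helper98.RD
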