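import Mathlib
import Pool.Agent.L5helper98.RD.F
import Pool.Agent.R227.IT2
import Pool.Agent.Y282.RB.Stm

/-! The lower bound for the one-dimensional operator. -/

set_option autoImplicit false

open MeasureTheory Set Filter Topology

namespace Pool.Agent.L5helper98.RD

open Pool.Agent.Helper187.Leg Pool.Agent.Helper187.Leg.KA

theorem prim : ∀ (n : ℕ) (R : ℝ) (g : ℝ → ℝ), ContDiff ℝ (⊤ : ℕ∞) g → (∀ x, R ≤ x → g x = 0) →
    ∃ h : ℝ → ℝ, ContDiff ℝ (⊤ : ℕ∞) h ∧ (∀ x, R ≤ x → h x = 0) ∧ iteratedDeriv n h = g := by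
  intro n R
  induction n with
  | zero => exact fun g hg hR => ⟨g, hg, hR, iteratedDeriv_zero⟩
  | succ n ih =>
    intro g hg hR
    have hc : Continuous g := hg.continuous
    have hd : ∀ x, HasDerivAt (fun x => ∫ t in R..x, g t) (g x) x := fun x =>
      (hc.integral_hasStrictDerivAt R x).hasDerivAt
    have hder : deriv (fun x => ∫ t in R..x, g t) = g := funext fun x => (hd x).deriv
    have hsm : ContDiff ℝ (⊤ : ℕ∞) (fun x => ∫ t in R..x, g t) := by
      refine contDiff_infty_iff_deriv.2 ⟨fun x => (hd x).differentiableAt, ?_⟩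
      rw [hder]
      exact hg
    have h0 : ∀ x, R ≤ x → (fun x => ∫ t in R..x, g t) x = 0 := by
      intro x hx
      have h1 : ∫ t in R..x, g t = ∫ _t in R..x, (0 : ℝ) := by
        refine intervalIntegral.integral_congr fun t ht => ?_
        rw [uIcc_of_le hx] at ht
        exact hR t ht.1
      change ∫ t in R..x, g t = 0
      rw [h1, intervalIntegral.integral_zero]
    obtain ⟨h, h1, h2, h3⟩ := ih _ hsm h0
    refine ⟨h, h1, h2, ?_⟩
    rw [iteratedDeriv_succ, h3, hder]

/-- the cut-off -/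
noncomputable def et (δ t : ℝ) : ℝ := Real.smoothTransition ((1 - t) / δ)

theorem et_smooth (δ : ℝ) : ContDiff ℝ (⊤ : ℕ∞) (et δ) :=
  Real.smoothTransition.contDiff.comp (by fun_prop)

theorem et_nonneg (δ t : ℝ) : 0 ≤ et δ t := Real.smoothTransition.nonneg _

theorem et_le_one (δ t : ℝ) : et δ t ≤ 1 := Real.smoothTransition.le_one _

theorem et_zero {δ t : ℝ} (hδ : 0 < δ) (ht : 1 ≤ t) : et δ t = 0 :=
  Real.smoothTransition.zero_of_nonpos (div_nonpos_of_nonpos_of_nonneg (by linarith) hδ.le)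

theorem et_one {δ t : ℝ} (hδ : 0 < δ) (ht : t ≤ 1 - δ) : et δ t = 1 :=
  Real.smoothTransition.one_of_one_le (by rw [le_div_iff₀ hδ]; linarith)

/-- the output is close to the Legendre polynomial -/
theorem near_leg (n : ℕ) {δ : ℝ} (hδ : 0 < δ) (hδ2 : δ ≤ 1 / 2) {h : ℝ → ℝ}
    (hh : ContDiff ℝ (⊤ : ℕ∞) h) (hR : ∃ R : ℝ, ∀ x, R ≤ x → h x = 0)
    (hd : iteratedDeriv n h = et δ) {t : ℝ} (h0 : 0 < t) (h1 : t ≤ 1) :
    |iteratedDeriv n (fun t => t ^ n * h t) t - leg n (2 * t - 1)| ≤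
      (1 - et δ t) + 2 * (n : ℝ) ^ 2 * δ := by
  obtain ⟨R, hR0, -, -, -, -, hk⟩ := kform' n hh hR
  set a := min t (t / R) with ha
  have ha0 : 0 < a := lt_min h0 (by positivity)
  have hat : a ≤ t := min_le_left _ _
  have hta : R ≤ t / a := by
    rw [le_div_iff₀ ha0]
    have : a ≤ t / R := min_le_right _ _
    rw [le_div_iff₀ hR0] at this
    linarith
  have hetc : Continuous (et δ) := (et_smooth δ).continuous
  have c1 : ContinuousOn (fun u => SS n (2 * u - 1) * (((t / u) ^ n * et δ (t / u)) / u)) (uIcc a 1) :=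
    cdiv t ha0 (hat.trans h1) (SS_cont n) ((continuous_pow n).mul hetc)
  have c2 : ContinuousOn (fun u => SS n (2 * u - 1) * (((t / u) ^ n * et δ (t / u)) / u)) (uIcc t 1) :=
    cdiv t h0 h1 (SS_cont n) ((continuous_pow n).mul hetc)
  have c4 : ContinuousOn (fun u => SS n (2 * u - 1) * ((t / u) ^ n / u)) (uIcc t 1) :=
    cdiv t h0 h1 (SS_cont n) (continuous_pow n)
  have c3 : ContinuousOn (fun u => SS n (2 * u - 1) * (((t / u) ^ n * et δ (t / u)) / u)) (uIcc a t) := by
    refine c1.mono ?_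
    rw [uIcc_of_le hat, uIcc_of_le (hat.trans h1)]
    exact Icc_subset_Icc_right h1
  have e1 : ∫ u in a..1, SS n (2 * u - 1) * (((t / u) ^ n * iteratedDeriv n h (t / u)) / u) =
      ∫ u in t..1, SS n (2 * u - 1) * (((t / u) ^ n * et δ (t / u)) / u) := by
    rw [hd, ← intervalIntegral.integral_add_adjacent_intervals
      (c3.intervalIntegrable (μ := volume)) (c2.intervalIntegrable (μ := volume))]
    have : ∫ u in a..t, SS n (2 * u - 1) * (((t / u) ^ n * et δ (t / u)) / u) = ∫ _u in a..t, (0 : ℝ) := by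
      refine intervalIntegral.integral_congr fun u hu => ?_
      rw [uIcc_of_le hat] at hu
      have hu0 : 0 < u := lt_of_lt_of_le ha0 hu.1
      have : et δ (t / u) = 0 := et_zero hδ (by rw [le_div_iff₀ hu0]; linarith [hu.2])
      simp only [this]
      ring
    rw [this, intervalIntegral.integral_zero, zero_add]
  have e2 : iteratedDeriv n (fun t => t ^ n * h t) t - leg n (2 * t - 1) =
      t ^ n * (et δ t - 1) + ∫ u in t..1, SS n (2 * u - 1) * (((t / u) ^ n * (1 - et δ (t / u))) / u) := by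
    rw [hk t a ha0 (hat.trans h1) hta, e1, leg_id n h0 h1, hd]
    have : ∫ u in t..1, SS n (2 * u - 1) * (((t / u) ^ n * (1 - et δ (t / u))) / u) =
        (∫ u in t..1, SS n (2 * u - 1) * ((t / u) ^ n / u)) -
          ∫ u in t..1, SS n (2 * u - 1) * (((t / u) ^ n * et δ (t / u)) / u) := by
      rw [← intervalIntegral.integral_sub (c4.intervalIntegrable (μ := volume))
        (c2.intervalIntegrable (μ := volume))]
      refine intervalIntegral.integral_congr fun u _ => ?_
      ring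
    rw [this]
    ring
  rw [e2]
  refine (abs_add_le _ _).trans (add_le_add ?_ ?_)
  · rw [abs_mul, abs_of_nonneg (by positivity : 0 ≤ t ^ n), abs_sub_comm,
      abs_of_nonneg (by linarith [et_le_one δ t] : 0 ≤ 1 - et δ t)]
    exact mul_le_of_le_one_left (by linarith [et_le_one δ t]) (pow_le_one₀ h0.le h1)
  · set b := min 1 (t / (1 - δ)) with hb
    have hδ1 : 0 < 1 - δ := by linarith
    have htb : t ≤ b := le_min h1 (by rw [le_div_iff₀ hδ1]; nlinarith)
    have hb1 : b ≤ 1 := min_le_left _ _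
    have c5 : ContinuousOn (fun u => SS n (2 * u - 1) * (((t / u) ^ n * (1 - et δ (t / u))) / u)) (uIcc t 1) :=
      cdiv t h0 h1 (SS_cont n) ((continuous_pow n).mul (continuous_const.sub hetc))
    have c6 : ContinuousOn (fun u => SS n (2 * u - 1) * (((t / u) ^ n * (1 - et δ (t / u))) / u)) (uIcc t b) := by
      refine c5.mono ?_
      rw [uIcc_of_le htb, uIcc_of_le h1]
      exact Icc_subset_Icc_right hb1
    have c7 : ContinuousOn (fun u => SS n (2 * u - 1) * (((t / u) ^ n * (1 - et δ (t / u))) / u)) (uIcc b 1) := by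
      refine c5.mono ?_
      rw [uIcc_of_le hb1, uIcc_of_le h1]
      exact Icc_subset_Icc_left htb
    have e3 : ∫ u in t..1, SS n (2 * u - 1) * (((t / u) ^ n * (1 - et δ (t / u))) / u) =
        ∫ u in t..b, SS n (2 * u - 1) * (((t / u) ^ n * (1 - et δ (t / u))) / u) := by
      rcases le_total 1 (t / (1 - δ)) with hm | hm
      · rw [hb, min_eq_left hm]
      · rw [← intervalIntegral.integral_add_adjacent_intervals
          (c6.intervalIntegrable (μ := volume)) (c7.intervalIntegrable (μ := volume))]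
        have : ∫ u in b..1, SS n (2 * u - 1) * (((t / u) ^ n * (1 - et δ (t / u))) / u) = ∫ _u in b..1, (0 : ℝ) := by
          refine intervalIntegral.integral_congr fun u hu => ?_
          rw [uIcc_of_le hb1] at hu
          have hu0 : 0 < u := lt_of_lt_of_le h0 (htb.trans hu.1)
          have hle : t / u ≤ 1 - δ := by
            have : t / (1 - δ) ≤ u := by
              have := hu.1
              rwa [hb, min_eq_right hm] at this
            rw [div_le_iff₀ hδ1] at this
            rw [div_le_iff₀ hu0]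
            linarith
          have : et δ (t / u) = 1 := et_one hδ hle
          simp only [this]
          ring
        rw [this, intervalIntegral.integral_zero, add_zero]
    rw [e3, ← Real.norm_eq_abs]
    have e4 : ∀ u ∈ Set.uIoc t b, ‖SS n (2 * u - 1) * (((t / u) ^ n * (1 - et δ (t / u))) / u)‖ ≤
        (n : ℝ) ^ 2 / t := by
      intro u hu
      rw [uIoc_of_le htb] at hu
      have hu0 : 0 < u := lt_trans h0 hu.1
      have hu1 : u ≤ 1 := hu.2.trans hb1
      have f1 : |SS n (2 * u - 1)| ≤ (n : ℝ) ^ 2 :=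
        abs_SS_le n (abs_le.2 ⟨by linarith, by linarith⟩)
      have f2 : 0 ≤ 1 - et δ (t / u) := by linarith [et_le_one δ (t / u)]
      have f3 : 1 - et δ (t / u) ≤ 1 := by linarith [et_nonneg δ (t / u)]
      have f4 : (t / u) ^ n ≤ 1 := pow_le_one₀ (by positivity) (by rw [div_le_one hu0]; exact hu.1.le)
      have f5 : 0 ≤ (t / u) ^ n := by positivity
      rw [Real.norm_eq_abs, abs_mul, abs_div, abs_mul, abs_of_nonneg f5, abs_of_nonneg f2, abs_of_pos hu0]
      have f6 : (t / u) ^ n * (1 - et δ (t / u)) / u ≤ 1 / t := by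
        refine div_le_div₀ zero_le_one ?_ h0 hu.1.le
        calc (t / u) ^ n * (1 - et δ (t / u)) ≤ 1 * 1 := mul_le_mul f4 f3 f2 zero_le_one
          _ = 1 := one_mul 1
      have f7 : 0 ≤ (t / u) ^ n * (1 - et δ (t / u)) / u := by positivity
      calc |SS n (2 * u - 1)| * ((t / u) ^ n * (1 - et δ (t / u)) / u) ≤ (n : ℝ) ^ 2 * (1 / t) :=
            mul_le_mul f1 f6 f7 (by positivity)
        _ = (n : ℝ) ^ 2 / t := by ring
    refine (intervalIntegral.norm_integral_le_of_norm_le_const e4).trans ?_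
    rw [abs_of_nonneg (by linarith)]
    have e5 : b - t ≤ 2 * δ * t := by
      have : b ≤ t / (1 - δ) := min_le_right _ _
      have h9 : t / (1 - δ) ≤ t + 2 * δ * t := by
        rw [div_le_iff₀ hδ1]
        have : 0 ≤ t * δ * (1 - 2 * δ) := mul_nonneg (mul_nonneg h0.le hδ.le) (by linarith)
        nlinarith
      linarith
    calc (n : ℝ) ^ 2 / t * (b - t) ≤ (n : ℝ) ^ 2 / t * (2 * δ * t) := by gcongr
      _ = 2 * (n : ℝ) ^ 2 * δ := by field_simp

/-- the `L^q` norm dominates the `L^1` norm on the unit interval -/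
theorem jens {f : ℝ → ℝ} (hf : Continuous f) {q : ℝ} (hq : 1 ≤ q) :
    (∫ t in (0 : ℝ)..1, |f t|) ^ q ≤ ∫ t in (0 : ℝ)..1, |f t| ^ q := by
  set c := ∫ t in (0 : ℝ)..1, |f t| with hc
  have hq0 : 0 < q := by linarith
  have hc0 : 0 ≤ c := intervalIntegral.integral_nonneg zero_le_one fun t _ => abs_nonneg _
  have hcf : Continuous fun t => |f t| ^ q := hf.abs.rpow_const fun x => Or.inr hq0.le
  rcases hc0.eq_or_lt with h0 | h0
  · rw [← h0, Real.zero_rpow hq0.ne']
    exact intervalIntegral.integral_nonneg zero_le_one fun t _ => by positivity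
  · have hpt : ∀ y : ℝ, 0 ≤ y → c ^ q + q * c ^ (q - 1) * (y - c) ≤ y ^ q := by
      intro y hy
      have h1 : -1 ≤ (y - c) / c := by
        rw [le_div_iff₀ h0]; linarith
      have h2 := one_add_mul_self_le_rpow_one_add h1 hq
      have h3 : 1 + (y - c) / c = y / c := by field_simp; ring
      rw [h3, Real.div_rpow hy h0.le, le_div_iff₀ (Real.rpow_pos_of_pos h0 _)] at h2
      refine le_trans (le_of_eq ?_) h2
      rw [Real.rpow_sub h0, Real.rpow_one]
      field_simp
    have h4 : ∫ t in (0 : ℝ)..1, (c ^ q + q * c ^ (q - 1) * (|f t| - c)) ≤ ∫ t in (0 : ℝ)..1, |f t| ^ q := by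
      refine intervalIntegral.integral_mono_on zero_le_one ?_ (hcf.intervalIntegrable _ _)
        fun t _ => hpt _ (abs_nonneg _)
      exact (continuous_const.add (continuous_const.mul (hf.abs.sub continuous_const))).intervalIntegrable _ _
    refine le_trans (le_of_eq ?_) h4
    have i0 : IntervalIntegrable (fun _ : ℝ => c) volume 0 1 := intervalIntegrable_const
    have i1 : IntervalIntegrable (fun t => |f t|) volume 0 1 := hf.abs.intervalIntegrable _ _
    have i2 : IntervalIntegrable (fun t => q * c ^ (q - 1) * (|f t| - c)) volume 0 1 :=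
      (i1.sub i0).const_mul _
    have i3 : IntervalIntegrable (fun _ : ℝ => c ^ q) volume 0 1 := intervalIntegrable_const
    rw [intervalIntegral.integral_add i3 i2, intervalIntegral.integral_const_mul,
      intervalIntegral.integral_sub i1 i0, ← hc]
    simp

theorem et_int {δ : ℝ} (hδ : 0 < δ) (hδ2 : δ ≤ 1 / 2) : ∫ t in (0 : ℝ)..1, (1 - et δ t) ≤ δ := by
  have hc : Continuous fun t => 1 - et δ t := continuous_const.sub (et_smooth δ).continuous
  rw [← intervalIntegral.integral_add_adjacent_intervals (b := 1 - δ) (hc.intervalIntegrable _ _)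
    (hc.intervalIntegrable _ _)]
  have h1 : ∫ t in (0 : ℝ)..(1 - δ), (1 - et δ t) = ∫ _t in (0 : ℝ)..(1 - δ), (0 : ℝ) := by
    refine intervalIntegral.integral_congr fun t ht => ?_
    rw [uIcc_of_le (by linarith)] at ht
    simp only [et_one hδ ht.2, sub_self]
  have h2 : ∫ t in (1 - δ)..1, (1 - et δ t) ≤ ∫ _t in (1 - δ)..1, (1 : ℝ) := by
    refine intervalIntegral.integral_mono_on (by linarith) (hc.intervalIntegrable _ _) (by simp)
      fun t _ => ?_
    linarith [et_nonneg δ t]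
  rw [h1, intervalIntegral.integral_zero, zero_add]
  refine h2.trans (le_of_eq ?_)
  rw [intervalIntegral.integral_const, smul_eq_mul]
  ring

/-- the lower bound -/
theorem lower {n : ℕ} (hn : 1 ≤ n) {q : ℝ} (hq : 1 ≤ q) (hq2 : q ≤ 2) :
    ∃ h : ℝ → ℝ, ContDiff ℝ (⊤ : ℕ∞) h ∧ (∃ R : ℝ, ∀ x, R ≤ x → h x = 0) ∧
      ((n : ℝ) ^ (1 / q - 1 / 2) / 16) ^ q * (∫ x in Ioi (0 : ℝ), |x ^ n * iteratedDeriv n h x| ^ q) <
        ∫ x in Ioi (0 : ℝ), |iteratedDeriv n (fun t => t ^ n * h t) x| ^ q := by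
  have hq0 : 0 < q := by linarith
  have hn1 : (1 : ℝ) ≤ n := by exact_mod_cast hn
  have hN : (0 : ℝ) < (n : ℝ) + 1 := by positivity
  set r := √((n : ℝ) + 1) with hr
  have hr0 : 0 < r := Real.sqrt_pos.2 hN
  have hr2 : r ^ 2 = n + 1 := Real.sq_sqrt hN.le
  have hr1 : 1 ≤ r := Real.one_le_sqrt.2 (by linarith)
  set δ : ℝ := 1 / (1000 * ((n : ℝ) + 1) ^ 3) with hδ
  have hδ0 : 0 < δ := by positivity
  have hδ1 : δ * (1000 * ((n : ℝ) + 1) ^ 3) = 1 := by rw [hδ]; field_simp
  have hδ2 : δ ≤ 1 / 2 := by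
    rw [hδ]
    have : (1 : ℝ) ≤ ((n : ℝ) + 1) ^ 3 := one_le_pow₀ (by linarith)
    rw [div_le_div_iff₀ (by positivity) (by norm_num)]
    linarith
  obtain ⟨h, hh, hR, hd⟩ := prim n 1 (et δ) (et_smooth δ) fun x hx => et_zero hδ0 hx
  refine ⟨h, hh, ⟨1, hR⟩, ?_⟩
  obtain ⟨R, hR0, hgR, hUR, hgc, hUc, -⟩ := kform' n hh ⟨1, hR⟩
  set U : ℝ → ℝ := iteratedDeriv n (fun t => t ^ n * h t) with hU
  -- the input
  have h1 : ∫ x in Ioi (0 : ℝ), |x ^ n * iteratedDeriv n h x| ^ q ≤ 1 / ((n : ℝ) + 1) := by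
    have hz : ∀ x, (1 : ℝ) ≤ x → |x ^ n * iteratedDeriv n h x| ^ q = 0 := by
      intro x hx
      rw [hd, et_zero hδ0 hx, mul_zero, abs_zero, Real.zero_rpow hq0.ne']
    rw [Pool.Agent.R227.IT.ioi_eq one_pos hz]
    have h2 : ∫ x in (0 : ℝ)..1, |x ^ n * iteratedDeriv n h x| ^ q ≤ ∫ x in (0 : ℝ)..1, x ^ n := by
      refine intervalIntegral.integral_mono_on zero_le_one
        ((hgc.abs.rpow_const fun x => Or.inr hq0.le).intervalIntegrable _ _)
        ((continuous_pow n).intervalIntegrable _ _) fun x hx => ?_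
      have h3 : 0 ≤ x ^ n := pow_nonneg hx.1 n
      have h4 : x ^ n ≤ 1 := pow_le_one₀ hx.1 hx.2
      have h5 : |x ^ n * iteratedDeriv n h x| ≤ x ^ n := by
        rw [abs_mul, abs_of_nonneg h3, hd, abs_of_nonneg (et_nonneg δ x)]
        exact mul_le_of_le_one_right h3 (et_le_one δ x)
      calc |x ^ n * iteratedDeriv n h x| ^ q ≤ |x ^ n * iteratedDeriv n h x| ^ (1 : ℝ) :=
            Real.rpow_le_rpow_of_exponent_ge' (abs_nonneg _) (h5.trans h4) zero_le_one hq
        _ = |x ^ n * iteratedDeriv n h x| := Real.rpow_one _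
        _ ≤ x ^ n := h5
    refine h2.trans (le_of_eq ?_)
    rw [integral_pow]
    simp
  -- the output
  have h6 : (1 / 16) / r < ∫ t in (0 : ℝ)..1, |U t| := by
    have h7 : ∫ t in (0 : ℝ)..1, |leg n (2 * t - 1)| ≤
        ∫ t in (0 : ℝ)..1, (|U t| + ((1 - et δ t) + 2 * (n : ℝ) ^ 2 * δ)) := by
      have hcc : Continuous fun t => |U t| + ((1 - et δ t) + 2 * (n : ℝ) ^ 2 * δ) :=
        hUc.abs.add ((continuous_const.sub (et_smooth δ).continuous).add continuous_const)
      refine intervalIntegral.integral_mono_on_of_le_Ioo zero_le_one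
        ((((leg_cont n).comp (by fun_prop : Continuous fun t : ℝ => 2 * t - 1)).abs).intervalIntegrable _ _)
        (hcc.intervalIntegrable _ _) fun t ht => ?_
      have h8 := near_leg n hδ0 hδ2 hh ⟨1, hR⟩ hd ht.1 ht.2.le
      have h9 : |leg n (2 * t - 1)| ≤ |U t| + |U t - leg n (2 * t - 1)| := by
        have := abs_sub_abs_le_abs_sub (leg n (2 * t - 1)) (U t)
        rw [abs_sub_comm] at this
        linarith
      linarith
    have hce : Continuous fun t => (1 - et δ t) + 2 * (n : ℝ) ^ 2 * δ :=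
      (continuous_const.sub (et_smooth δ).continuous).add continuous_const
    have j1 : IntervalIntegrable (fun t => 1 - et δ t) volume 0 1 :=
      (continuous_const.sub (et_smooth δ).continuous).intervalIntegrable _ _
    have j2 : IntervalIntegrable (fun _ : ℝ => 2 * (n : ℝ) ^ 2 * δ) volume 0 1 := intervalIntegrable_const
    rw [intervalIntegral.integral_add (hUc.abs.intervalIntegrable _ _) (hce.intervalIntegrable _ _),
      intervalIntegral.integral_add j1 j2] at h7
    have h10 := et_int hδ0 hδ2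
    have h11 : ∫ _t in (0 : ℝ)..1, (2 * (n : ℝ) ^ 2 * δ) = 2 * (n : ℝ) ^ 2 * δ := by
      rw [intervalIntegral.integral_const, smul_eq_mul]; ring
    rw [h11] at h7
    have h12 := leg_L1' n
    have h13 : δ + 2 * (n : ℝ) ^ 2 * δ ≤ (1 / 500) / r := by
      rw [le_div_iff₀ hr0]
      have h14 : (1 + 2 * (n : ℝ) ^ 2) * r ≤ 2 * ((n : ℝ) + 1) ^ 3 := by
        have h15 : r ≤ (n : ℝ) + 1 := by rw [← hr2]; nlinarith
        have h16 : 1 + 2 * (n : ℝ) ^ 2 ≤ 2 * ((n : ℝ) + 1) ^ 2 := by nlinarith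
        calc (1 + 2 * (n : ℝ) ^ 2) * r ≤ (2 * ((n : ℝ) + 1) ^ 2) * ((n : ℝ) + 1) :=
              mul_le_mul h16 h15 hr0.le (by positivity)
          _ = _ := by ring
      calc (δ + 2 * (n : ℝ) ^ 2 * δ) * r = δ * ((1 + 2 * (n : ℝ) ^ 2) * r) := by ring
        _ ≤ δ * (2 * ((n : ℝ) + 1) ^ 3) := by gcongr
        _ = (1 / 500) * (δ * (1000 * ((n : ℝ) + 1) ^ 3)) := by ring
        _ = 1 / 500 := by rw [hδ1, mul_one]
    have h17 : (1 / 16) / r + (1 / 500) / r < (1 / 15) / r := by
      rw [← add_div]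
      exact div_lt_div_of_pos_right (by norm_num) hr0
    linarith
  have h18 : ((1 / 16) / r) ^ q < ∫ x in Ioi (0 : ℝ), |U x| ^ q := by
    have hcq : Continuous fun x => |U x| ^ q := hUc.abs.rpow_const fun x => Or.inr hq0.le
    have hint : IntegrableOn (fun x => |U x| ^ q) (Ioi 0) :=
      Pool.Agent.R227.IT.intg hcq R fun x hx => by
        rw [hUR x hx, abs_zero, Real.zero_rpow hq0.ne']
    calc ((1 / 16) / r) ^ q < (∫ t in (0 : ℝ)..1, |U t|) ^ q :=
          Real.rpow_lt_rpow (by positivity) h6 hq0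
      _ ≤ ∫ t in (0 : ℝ)..1, |U t| ^ q := jens hUc hq
      _ = ∫ t in Ioc (0 : ℝ) 1, |U t| ^ q := intervalIntegral.integral_of_le zero_le_one
      _ ≤ ∫ x in Ioi (0 : ℝ), |U x| ^ q := by
          refine setIntegral_mono_set hint (Eventually.of_forall fun x => by positivity) ?_
          exact LE.le.eventuallyLE (fun x hx => hx.1 : Ioc (0 : ℝ) 1 ⊆ Ioi 0)
  refine lt_of_le_of_lt ?_ h18
  have h19 : ((n : ℝ) ^ (1 / q - 1 / 2) / 16) ^ q ≤ (((n : ℝ) + 1) ^ (1 / q - 1 / 2) / 16) ^ q := by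
    have he : 0 ≤ 1 / q - 1 / 2 := by
      have : 1 / 2 ≤ 1 / q := one_div_le_one_div_of_le hq0 hq2
      linarith
    have : (n : ℝ) ^ (1 / q - 1 / 2) ≤ ((n : ℝ) + 1) ^ (1 / q - 1 / 2) :=
      Real.rpow_le_rpow (by positivity) (by linarith) he
    refine Real.rpow_le_rpow (by positivity) ?_ hq0.le
    linarith
  calc ((n : ℝ) ^ (1 / q - 1 / 2) / 16) ^ q * (∫ x in Ioi (0 : ℝ), |x ^ n * iteratedDeriv n h x| ^ q)
      ≤ (((n : ℝ) + 1) ^ (1 / q - 1 / 2) / 16) ^ q * (1 / ((n : ℝ) + 1)) := by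
        refine mul_le_mul h19 h1 (integral_nonneg fun x => by positivity) (by positivity)
    _ = ((1 / 16) / r) ^ q := by
        rw [Real.div_rpow (by positivity) (by norm_num), Real.div_rpow (by norm_num) hr0.le,
          Real.div_rpow (by norm_num) (by norm_num), Real.one_rpow, ← Real.rpow_mul hN.le, hr,
          Real.sqrt_eq_rpow, ← Real.rpow_mul hN.le]
        have e1 : (1 / q - 1 / 2) * q = 1 + -(1 / 2 * q) := by field_simp; ring
        rw [e1, Real.rpow_add hN, Real.rpow_one, Real.rpow_neg hN.le]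
        have : 0 < ((n : ℝ) + 1) ^ (1 / 2 * q) := Real.rpow_pos_of_pos hN _
        field_simp

end Pool.Agent.L5helper98.RD
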