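import Mathlib
import Pool.Agent.R227.IT5
import Pool.Agent.Y282.RB.K

/-! Duality on the half-line. -/

set_option autoImplicit false

open MeasureTheory Set Filter Topology ENNReal

namespace Pool.Agent.L5helper98.RD

open Pool.Agent

/-- the dual function -/
noncomputable def du (p : ℝ) (z : ℂ) : ℂ := (starRingEnd ℂ) z * ((‖z‖ ^ (p - 2) : ℝ) : ℂ)

theorem du_norm {p : ℝ} (hp : 1 < p) (z : ℂ) : ‖du p z‖ = ‖z‖ ^ (p - 1) := by
  unfold du
  rw [norm_mul, Complex.norm_conj, Complex.norm_real, Real.norm_of_nonneg (by positivity)]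
  by_cases hz : z = 0
  · subst hz
    rw [norm_zero, zero_mul, Real.zero_rpow (by linarith)]
  · have h0 : 0 < ‖z‖ := norm_pos_iff.2 hz
    have : p - 1 = 1 + (p - 2) := by ring
    rw [this, Real.rpow_add h0, Real.rpow_one]

theorem du_mul {p : ℝ} (hp : 1 < p) (z : ℂ) : z * du p z = ((‖z‖ ^ p : ℝ) : ℂ) := by
  by_cases hz : z = 0
  · subst hz
    rw [zero_mul, norm_zero, Real.zero_rpow (by linarith)]
    simp
  · have h0 : 0 < ‖z‖ := norm_pos_iff.2 hz
    unfold du
    rw [← mul_assoc, Complex.mul_conj, Complex.normSq_eq_norm_sq]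
    have : ‖z‖ ^ p = ‖z‖ ^ 2 * ‖z‖ ^ (p - 2) := by
      rw [← Real.rpow_natCast, ← Real.rpow_add h0]
      congr 1
      push_cast
      ring
    rw [this]
    push_cast
    rfl

theorem du_cont {p : ℝ} (hp : 1 < p) : Continuous (du p) := by
  rw [continuous_iff_continuousAt]
  intro z
  by_cases hz : z = 0
  · subst hz
    have h0 : du p 0 = 0 := by simp [du]
    rw [ContinuousAt, h0, tendsto_zero_iff_norm_tendsto_zero]
    have h1 : (fun z => ‖du p z‖) = fun z => ‖z‖ ^ (p - 1) := funext (du_norm hp)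
    rw [h1]
    have h2 : Continuous fun z : ℂ => ‖z‖ ^ (p - 1) :=
      continuous_norm.rpow_const fun _ => Or.inr (by linarith)
    have h3 := h2.tendsto 0
    rwa [norm_zero, Real.zero_rpow (by linarith)] at h3
  · unfold du
    refine ContinuousAt.mul Complex.continuous_conj.continuousAt ?_
    refine Complex.continuous_ofReal.continuousAt.comp ?_
    exact continuous_norm.continuousAt.rpow_const (Or.inl (norm_ne_zero_iff.2 hz))

/-- test functions -/
def Tst (γ : ℝ → ℂ) : Prop := ContDiff ℝ (⊤ : ℕ∞) γ ∧ (∃ δ : ℝ, 0 < δ ∧ ∀ x, x ≤ δ → γ x = 0) ∧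
  ∃ R : ℝ, ∀ x, R ≤ x → γ x = 0

/-- smooth approximation -/
theorem smap {g : ℝ → ℂ} (hg : Continuous g) (hg0 : g 0 = 0) {R : ℝ} (hR : 0 < R)
    (hv : ∀ x, R ≤ x → g x = 0) {ω : ℝ} (hω : 0 < ω) :
    ∃ γ : ℝ → ℂ, Tst γ ∧ (∀ x, 0 < x → ‖g x - γ x‖ ≤ ω) ∧ ∀ x, R + 1 ≤ x → γ x = 0 := by
  obtain ⟨δ, K, a, hδ, h1, h2, -⟩ := R227.IT.approx hg hg0 hR hv (p := 1) one_pos hω
  have h3 : ∀ x, R + 1 ≤ x → (∑ i ∈ Finset.range K, a i * (R227.IT.bp δ i x : ℂ)) = 0 := by
    intro x hx
    have h4 := h2 x hx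
    rw [hv x (by linarith), zero_sub, neg_eq_zero] at h4
    exact h4
  refine ⟨fun x => ∑ i ∈ Finset.range K, a i * (R227.IT.bp δ i x : ℂ), ⟨?_, ⟨δ, hδ, ?_⟩, ⟨R + 1, h3⟩⟩, h1, h3⟩
  · refine ContDiff.sum fun i _ => contDiff_const.mul ?_
    exact Complex.ofRealCLM.contDiff.comp (R227.IT.bp_smooth δ i)
  · intro x hx
    refine Finset.sum_eq_zero fun i _ => ?_
    rw [R227.IT.bp_left hδ]
    · simp
    · have : (0 : ℝ) ≤ i := Nat.cast_nonneg i
      nlinarith

theorem dual1 {v : ℝ → ℂ} (hv : Continuous v) {p q : ℝ} (hpq : p.HolderConjugate q) {K : ℝ≥0∞}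
    (hK : K ≠ ∞)
    (h : ∀ γ : ℝ → ℂ, Tst γ →
      ‖∫ x in Ioi (0 : ℝ), v x * γ x‖ₑ ≤ K * (∫⁻ x in Ioi (0 : ℝ), ‖γ x‖ₑ ^ q) ^ (1 / q)) :
    ∫⁻ x in Ioi (0 : ℝ), ‖v x‖ₑ ^ p ≤ K ^ p := by
  have hp1 : 1 < p := hpq.lt
  have hq1 : 1 < q := hpq.symm.lt
  have hp0 : 0 < p := by linarith
  have hq0 : 0 < q := by linarith
  have key : ∀ (χ : ℝ → ℝ) (R δ : ℝ), 0 < δ → 0 < R → Continuous χ → (∀ x, 0 ≤ χ x ∧ χ x ≤ 1) →
      (∀ x, x ≤ δ → χ x = 0) → (∀ x, R ≤ x → χ x = 0) →
      ∫⁻ x in Ioi (0 : ℝ), ENNReal.ofReal (χ x) * ‖v x‖ₑ ^ p ≤ K ^ p := by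
    intro χ R δ hδ hR hχc hχ01 hχ0 hχR
    set g : ℝ → ℂ := fun x => (χ x : ℂ) * du p (v x) with hg
    have hgc : Continuous g := (Complex.continuous_ofReal.comp hχc).mul ((du_cont hp1).comp hv)
    have hg0 : g 0 = 0 := by simp [hg, hχ0 0 hδ.le]
    have hgR : ∀ x, R ≤ x → g x = 0 := fun x hx => by simp [hg, hχR x hx]
    set A : ℝ≥0∞ := ∫⁻ x in Ioi (0 : ℝ), ENNReal.ofReal (χ x) * ‖v x‖ₑ ^ p with hA
    -- the integral of `v g`
    have hvg : ∀ x, v x * g x = ((χ x * ‖v x‖ ^ p : ℝ) : ℂ) := by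
      intro x
      simp only [hg]
      rw [mul_left_comm, du_mul hp1]
      push_cast
      rfl
    have hcr : Continuous fun x => χ x * ‖v x‖ ^ p :=
      hχc.mul (hv.norm.rpow_const fun _ => Or.inr hp0.le)
    have hir : IntegrableOn (fun x => χ x * ‖v x‖ ^ p) (Ioi 0) :=
      R227.IT.intg hcr R fun x hx => by rw [hχR x hx, zero_mul]
    have hAi : ‖∫ x in Ioi (0 : ℝ), v x * g x‖ₑ = A := by
      simp_rw [hvg]
      rw [integral_complex_ofReal]
      have h0 : 0 ≤ ∫ x in Ioi (0 : ℝ), χ x * ‖v x‖ ^ p :=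
        integral_nonneg fun x => mul_nonneg (hχ01 x).1 (by positivity)
      rw [← ofReal_norm, Complex.norm_real, Real.norm_of_nonneg h0,
        ofReal_integral_eq_lintegral_ofReal hir
          (Eventually.of_forall fun x => mul_nonneg (hχ01 x).1 (by positivity)), hA]
      refine lintegral_congr fun x => ?_
      rw [ENNReal.ofReal_mul (hχ01 x).1, ← ofReal_norm,
        ENNReal.ofReal_rpow_of_nonneg (norm_nonneg _) hp0.le]
    have hAf : A ≠ ∞ := by
      rw [← hAi]; exact enorm_ne_top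
    -- the norm of `g`
    have hgn : ∫⁻ x in Ioi (0 : ℝ), ‖g x‖ₑ ^ q ≤ A := by
      refine lintegral_mono fun x => ?_
      have e1 : ‖g x‖ = χ x * ‖v x‖ ^ (p - 1) := by
        simp only [hg]
        rw [norm_mul, du_norm hp1, Complex.norm_real, Real.norm_of_nonneg (hχ01 x).1]
      rw [← ofReal_norm, e1, ENNReal.ofReal_rpow_of_nonneg (by have := (hχ01 x).1; positivity) hq0.le,
        ← ofReal_norm, ENNReal.ofReal_rpow_of_nonneg (norm_nonneg _) hp0.le,
        ← ENNReal.ofReal_mul (hχ01 x).1]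
      refine ENNReal.ofReal_le_ofReal ?_
      rw [Real.mul_rpow (hχ01 x).1 (by positivity), ← Real.rpow_mul (norm_nonneg _)]
      have e2 : (p - 1) * q = p := by
        have := hpq.sub_one_mul_conj
        exact this
      rw [e2]
      have e3 : χ x ^ q ≤ χ x := by
        have := Real.rpow_le_rpow_of_exponent_ge' (hχ01 x).1 (hχ01 x).2 zero_le_one hq1.le
        rwa [Real.rpow_one] at this
      exact mul_le_mul_of_nonneg_right e3 (by positivity)
    -- bound of `v` on the support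
    obtain ⟨B, hB⟩ := (isCompact_Icc (a := (0 : ℝ)) (b := R + 1)).exists_bound_of_continuousOn hv.continuousOn
    have hB0 : 0 ≤ B := (norm_nonneg _).trans (hB 0 ⟨le_rfl, by linarith⟩)
    -- approximation
    have hlim : ∀ ω : ℝ, 0 < ω → A ≤ K * ((∫⁻ x in Ioi (0 : ℝ), ‖g x‖ₑ ^ q) ^ (1 / q) +
        ENNReal.ofReal ω * ENNReal.ofReal (R + 1) ^ (1 / q)) + ENNReal.ofReal ω * ENNReal.ofReal (B * (R + 1)) := by
      intro ω hω
      obtain ⟨γ, hγ, h1, h2⟩ := smap hgc hg0 hR hgR hω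
      have hγc : Continuous γ := hγ.1.continuous
      have hd0 : ∀ x, R + 1 ≤ x → g x - γ x = 0 := fun x hx => by
        rw [hgR x (by linarith), h2 x hx, sub_zero]
      -- first term
      have t1 := h γ hγ
      have t2 : (∫⁻ x in Ioi (0 : ℝ), ‖γ x‖ₑ ^ q) ^ (1 / q) ≤
          (∫⁻ x in Ioi (0 : ℝ), ‖g x‖ₑ ^ q) ^ (1 / q) + ENNReal.ofReal ω * ENNReal.ofReal (R + 1) ^ (1 / q) := by
        have m1 : Measurable fun x => ‖g x‖ₑ := hgc.enorm.measurable
        have m2 : Measurable fun x => ‖g x - γ x‖ₑ := (hgc.sub hγc).enorm.measurable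
        calc (∫⁻ x in Ioi (0 : ℝ), ‖γ x‖ₑ ^ q) ^ (1 / q)
            ≤ (∫⁻ x in Ioi (0 : ℝ), ((fun x => ‖g x‖ₑ) + fun x => ‖g x - γ x‖ₑ) x ^ q) ^ (1 / q) := by
              refine ENNReal.rpow_le_rpow (lintegral_mono fun x => ENNReal.rpow_le_rpow ?_ hq0.le) (by positivity)
              have : γ x = g x - (g x - γ x) := by ring
              conv_lhs => rw [this]
              exact enorm_sub_le
          _ ≤ (∫⁻ x in Ioi (0 : ℝ), ‖g x‖ₑ ^ q) ^ (1 / q) +
              (∫⁻ x in Ioi (0 : ℝ), ‖g x - γ x‖ₑ ^ q) ^ (1 / q) :=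
              ENNReal.lintegral_Lp_add_le m1.aemeasurable m2.aemeasurable hq1.le
          _ ≤ _ := by
              refine add_le_add le_rfl ?_
              have : ∫⁻ x in Ioi (0 : ℝ), ‖g x - γ x‖ₑ ^ q ≤ ENNReal.ofReal ω ^ q * ENNReal.ofReal (R + 1) := by
                calc ∫⁻ x in Ioi (0 : ℝ), ‖g x - γ x‖ₑ ^ q
                    ≤ ∫⁻ x in Ioi (0 : ℝ), (Ioc (0 : ℝ) (R + 1)).indicator (fun _ => ENNReal.ofReal ω ^ q) x := by
                      refine setLIntegral_mono' measurableSet_Ioi fun x hx => ?_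
                      by_cases hxR : x ≤ R + 1
                      · rw [indicator_of_mem (show x ∈ Ioc (0 : ℝ) (R + 1) from ⟨hx, hxR⟩)]
                        refine ENNReal.rpow_le_rpow ?_ hq0.le
                        rw [← ofReal_norm]
                        exact ENNReal.ofReal_le_ofReal (h1 x hx)
                      · rw [hd0 x (by linarith), enorm_zero, ENNReal.zero_rpow_of_pos hq0]
                        exact bot_le
                  _ ≤ ∫⁻ x, (Ioc (0 : ℝ) (R + 1)).indicator (fun _ => ENNReal.ofReal ω ^ q) x :=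
                      setLIntegral_le_lintegral _ _
                  _ = ENNReal.ofReal ω ^ q * ENNReal.ofReal (R + 1) := by
                      rw [lintegral_indicator measurableSet_Ioc, setLIntegral_const, Real.volume_Ioc, sub_zero]
              refine (ENNReal.rpow_le_rpow this (by positivity)).trans (le_of_eq ?_)
              rw [ENNReal.mul_rpow_of_nonneg _ _ (by positivity), ← ENNReal.rpow_mul,
                mul_one_div_cancel hq0.ne', ENNReal.rpow_one]
      -- second term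
      have i1 : IntegrableOn (fun x => v x * γ x) (Ioi 0) := by
        have hc : Continuous fun x => v x * γ x := hv.mul hγc
        have h3 : IntegrableOn (fun x => v x * γ x) (Ioc 0 (R + 1)) :=
          (hc.integrableOn_Icc).mono_set Ioc_subset_Icc_self
        have h4 : IntegrableOn (fun x => v x * γ x) (Ioi (R + 1)) :=
          integrableOn_zero.congr_fun (fun x hx => by simp [h2 x (le_of_lt hx)]) measurableSet_Ioi
        refine (h3.union h4).mono_set fun x hx => ?_
        by_cases hxR : x ≤ R + 1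
        · exact Or.inl ⟨hx, hxR⟩
        · exact Or.inr (not_le.1 hxR)
      have i2 : IntegrableOn (fun x => v x * g x) (Ioi 0) := by
        simp_rw [hvg]
        exact hir.ofReal
      have t3 : ‖∫ x in Ioi (0 : ℝ), v x * (g x - γ x)‖ₑ ≤ ENNReal.ofReal ω * ENNReal.ofReal (B * (R + 1)) := by
        calc ‖∫ x in Ioi (0 : ℝ), v x * (g x - γ x)‖ₑ ≤ ∫⁻ x in Ioi (0 : ℝ), ‖v x * (g x - γ x)‖ₑ :=
              enorm_integral_le_lintegral_enorm _
          _ ≤ ∫⁻ x in Ioi (0 : ℝ), (Ioc (0 : ℝ) (R + 1)).indicator (fun _ => ENNReal.ofReal (B * ω)) x := by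
              refine setLIntegral_mono' measurableSet_Ioi fun x hx => ?_
              by_cases hxR : x ≤ R + 1
              · rw [indicator_of_mem (show x ∈ Ioc (0 : ℝ) (R + 1) from ⟨hx, hxR⟩), ← ofReal_norm]
                refine ENNReal.ofReal_le_ofReal ?_
                rw [norm_mul]
                exact mul_le_mul (hB x ⟨le_of_lt hx, hxR⟩) (h1 x hx) (norm_nonneg _) hB0
              · rw [hd0 x (by linarith), mul_zero, enorm_zero]
                exact bot_le
          _ ≤ ∫⁻ x, (Ioc (0 : ℝ) (R + 1)).indicator (fun _ => ENNReal.ofReal (B * ω)) x :=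
              setLIntegral_le_lintegral _ _
          _ = ENNReal.ofReal (B * ω) * ENNReal.ofReal (R + 1) := by
              rw [lintegral_indicator measurableSet_Ioc, setLIntegral_const, Real.volume_Ioc, sub_zero]
          _ = _ := by
              rw [← ENNReal.ofReal_mul (by positivity), ← ENNReal.ofReal_mul hω.le]
              congr 1
              ring
      have t4 : ∫ x in Ioi (0 : ℝ), v x * g x =
          (∫ x in Ioi (0 : ℝ), v x * γ x) + ∫ x in Ioi (0 : ℝ), v x * (g x - γ x) := by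
        rw [← integral_add i1 (by
          have := i2.sub i1
          refine this.congr_fun (fun x _ => ?_) measurableSet_Ioi
          simp only [Pi.sub_apply]
          ring)]
        refine integral_congr_ae (Eventually.of_forall fun x => ?_)
        simp only
        ring
      rw [← hAi, t4]
      refine (enorm_add_le _ _).trans (add_le_add (t1.trans (mul_le_mul_right t2 K)) t3)
    -- the limit
    have hfin : (∫⁻ x in Ioi (0 : ℝ), ‖g x‖ₑ ^ q) ^ (1 / q) ≠ ∞ :=
      ENNReal.rpow_ne_top_of_nonneg (by positivity) (ne_top_of_le_ne_top hAf hgn)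
    have hA2 : A ≤ K * (∫⁻ x in Ioi (0 : ℝ), ‖g x‖ₑ ^ q) ^ (1 / q) := by
      set E : ℝ≥0∞ := (∫⁻ x in Ioi (0 : ℝ), ‖g x‖ₑ ^ q) ^ (1 / q)
      have hten : Tendsto (fun ω : ℝ => K * (E + ENNReal.ofReal ω * ENNReal.ofReal (R + 1) ^ (1 / q)) +
          ENNReal.ofReal ω * ENNReal.ofReal (B * (R + 1))) (𝓝[>] 0) (𝓝 (K * (E + 0) + 0)) := by
        have h0 : Tendsto (fun ω : ℝ => ENNReal.ofReal ω) (𝓝[>] 0) (𝓝 0) := by
          have := (ENNReal.continuous_ofReal.tendsto (0 : ℝ)).mono_left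
            (nhdsWithin_le_nhds (s := Ioi (0 : ℝ)))
          rwa [ENNReal.ofReal_zero] at this
        have h1 : Tendsto (fun ω : ℝ => ENNReal.ofReal ω * ENNReal.ofReal (R + 1) ^ (1 / q)) (𝓝[>] 0) (𝓝 0) := by
          have := ENNReal.Tendsto.mul_const (b := ENNReal.ofReal (R + 1) ^ (1 / q)) h0
            (Or.inr (ENNReal.rpow_ne_top_of_nonneg (by positivity) ENNReal.ofReal_ne_top))
          rwa [zero_mul] at this
        have h2 : Tendsto (fun ω : ℝ => ENNReal.ofReal ω * ENNReal.ofReal (B * (R + 1))) (𝓝[>] 0) (𝓝 0) := by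
          have := ENNReal.Tendsto.mul_const (b := ENNReal.ofReal (B * (R + 1))) h0
            (Or.inr ENNReal.ofReal_ne_top)
          rwa [zero_mul] at this
        exact (ENNReal.Tendsto.const_mul (tendsto_const_nhds.add h1) (Or.inr hK)).add h2
      rw [add_zero, add_zero] at hten
      refine ge_of_tendsto hten ?_
      filter_upwards [self_mem_nhdsWithin] with ω hω
      exact hlim ω hω
    have hA3 : A ≤ K * A ^ (1 / q) :=
      hA2.trans (mul_le_mul_right (ENNReal.rpow_le_rpow hgn (by positivity)) K)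
    by_cases hA0 : A = 0
    · rw [hA0]; exact bot_le
    · have h5 : A ^ (1 / p) ≤ K := by
        have h6 : A = A ^ (1 / p) * A ^ (1 / q) := by
          rw [← ENNReal.rpow_add _ _ hA0 hAf]
          have : 1 / p + 1 / q = 1 := by
            have := hpq.inv_add_inv_eq_one
            rw [one_div, one_div]; exact this
          rw [this, ENNReal.rpow_one]
        have h7 : A ^ (1 / q) ≠ 0 := by
          intro hc
          rw [ENNReal.rpow_eq_zero_iff] at hc
          rcases hc with hc | hc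
          · exact hA0 hc.1
          · exact hAf hc.1
        have h8 : A ^ (1 / q) ≠ ∞ := ENNReal.rpow_ne_top_of_nonneg (by positivity) hAf
        have h9 : A ^ (1 / p) * A ^ (1 / q) ≤ K * A ^ (1 / q) := h6.symm.le.trans hA3
        exact (ENNReal.mul_le_mul_iff_left h7 h8).1 h9
      have h10 := ENNReal.rpow_le_rpow h5 hp0.le
      rwa [← ENNReal.rpow_mul, one_div_mul_cancel hp0.ne', ENNReal.rpow_one] at h10
  -- exhaustion
  have hcut : ∀ m : ℕ, ∃ (χ : ℝ → ℝ) (R : ℝ), Continuous χ ∧ (∀ x, 0 ≤ χ x ∧ χ x ≤ 1) ∧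
      (∀ x, 1 / ((m : ℝ) + 2) ≤ x → x ≤ 1 / (1 / ((m : ℝ) + 2)) → χ x = 1) ∧
      (∀ x, x ≤ 1 / ((m : ℝ) + 2) / 2 → χ x = 0) ∧ ∀ x, R ≤ x → χ x = 0 := by
    intro m
    have h0 : 0 < 1 / ((m : ℝ) + 2) := by positivity
    have h1 : 1 / ((m : ℝ) + 2) < 1 := by
      rw [div_lt_one (by positivity)]
      have : (0 : ℝ) ≤ m := Nat.cast_nonneg m
      linarith
    obtain ⟨χ, R, a1, -, a3, a4, a5, a6⟩ := Y282.RB.K.exists_cut _ h0 h1
    exact ⟨χ, R, a1.continuous, a3, a4, a5, a6⟩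
  choose χ R hc h01 h1 h0 hR using hcut
  have hle : ∀ m, ∫⁻ x in Ioi (0 : ℝ), ENNReal.ofReal (χ m x) * ‖v x‖ₑ ^ p ≤ K ^ p := by
    intro m
    refine key (χ m) (max (R m) 1) (1 / ((m : ℝ) + 2) / 2) (by positivity) (by positivity) (hc m) (h01 m)
      (h0 m) fun x hx => hR m x ((le_max_left _ _).trans hx)
  have hfat : ∫⁻ x in Ioi (0 : ℝ), ‖v x‖ₑ ^ p ≤
      liminf (fun m => ∫⁻ x in Ioi (0 : ℝ), ENNReal.ofReal (χ m x) * ‖v x‖ₑ ^ p) atTop := by
    have hm : ∀ m, Measurable fun x => ENNReal.ofReal (χ m x) * ‖v x‖ₑ ^ p := fun m =>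
      (ENNReal.measurable_ofReal.comp (hc m).measurable).mul (hv.enorm.measurable.pow_const p)
    refine le_trans ?_ (lintegral_liminf_le hm)
    refine setLIntegral_mono' measurableSet_Ioi fun x hx => ?_
    have hx0 : 0 < x := hx
    have hev : ∀ᶠ m : ℕ in atTop, ENNReal.ofReal (χ m x) * ‖v x‖ₑ ^ p = ‖v x‖ₑ ^ p := by
      obtain ⟨N, hN⟩ := exists_nat_gt (max x (1 / x))
      filter_upwards [eventually_ge_atTop N] with m hm
      have hmN : (N : ℝ) ≤ m := by exact_mod_cast hm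
      have b1 : x ≤ (m : ℝ) + 2 := by linarith [le_max_left x (1 / x)]
      have b2 : 1 / x ≤ (m : ℝ) + 2 := by linarith [le_max_right x (1 / x)]
      have b3 : 1 / ((m : ℝ) + 2) ≤ x := by
        rw [div_le_iff₀ (by positivity)]
        rw [div_le_iff₀ hx0] at b2
        linarith
      rw [h1 m x b3 (by rw [one_div_one_div]; exact b1), ENNReal.ofReal_one, one_mul]
    rw [(tendsto_const_nhds.congr' (hev.mono fun m hm => hm.symm)).liminf_eq]
  refine hfat.trans ?_
  exact liminf_le_of_le (by isBoundedDefault) fun b hb => by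
    obtain ⟨m, hm⟩ := hb.exists
    exact hm.trans (hle m)

end Pool.Agent.L5helper98.RD
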