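import Mathlib
import Pool.Agent.L5helper98.RD.H
import Pool.Agent.Y282.RB.K
import Pool.Agent.Y282.RB.K2
import Pool.Agent.Y282.RB.A2

/-! Facts on the operator in the plane: symmetry, rotations, polar coordinates. -/

set_option autoImplicit false

open MeasureTheory Set Filter Topology ENNReal
open scoped SchwartzMap

namespace Pool.Agent.L5helper98.RD

open Pool.Agent Pool.Agent.Y282.RB
open Pool.Agent.TH55.PowA (T Ft bs sm Adm T_integrand_int T_cont Ft_eq Ft_fun Ft_int bs_meas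
  bs_norm_le norm_ex meas_ex)

/-- the symbol -/
noncomputable def sy (n : ℕ) (ξ : ℂ) : ℂ := bs ξ ^ n

theorem sy_adm (n : ℕ) : Adm (sy n) := K.adm_sy n

theorem Tn_sy (n : ℕ) (f : 𝓢(ℂ, ℂ)) : Tn n f = T (sy n) f := rfl

theorem sy_neg (n : ℕ) (ξ : ℂ) : sy n (-ξ) = sy n ξ := by
  unfold sy bs
  rw [map_neg, neg_div_neg_eq]

theorem sm_neg (x ξ : ℂ) : sm x (-ξ) = -sm x ξ := by
  unfold sm
  simp
  ring

theorem Tn_cont (n : ℕ) (f : 𝓢(ℂ, ℂ)) : Continuous (Tn n f) := T_cont (sy_adm n) f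

theorem sym_half (n : ℕ) (f g : 𝓢(ℂ, ℂ)) :
    ∫ z, Tn n f z * g z = ∫ ξ, sy n ξ * Ft f ξ * Ft g (-ξ) := by
  have h1 : ∀ z, Tn n f z * g z = ∫ ξ : ℂ,
      Complex.exp (2 * (Real.pi : ℂ) * Complex.I * ((sm z ξ : ℝ) : ℂ)) * (sy n ξ * Ft f ξ) * g z := by
    intro z
    rw [integral_mul_const]
    rfl
  simp_rw [h1]
  rw [integral_integral_swap]
  · refine integral_congr_ae (Eventually.of_forall fun ξ => ?_)
    simp only
    have h2 : ∀ z : ℂ, Complex.exp (2 * (Real.pi : ℂ) * Complex.I * ((sm z ξ : ℝ) : ℂ)) *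
        (sy n ξ * Ft f ξ) * g z = sy n ξ * Ft f ξ *
          (Complex.exp (-(2 * (Real.pi : ℂ) * Complex.I * ((sm z (-ξ) : ℝ) : ℂ))) * g z) := by
      intro z
      rw [sm_neg]
      push_cast
      ring_nf
    simp_rw [h2]
    rw [integral_const_mul]
    rfl
  · have h3 : Integrable (fun p : ℂ × ℂ => (‖g p.1‖ : ℝ) * ‖Ft f p.2‖) (volume.prod volume) :=
      g.integrable.norm.mul_prod (Ft_int f).norm
    refine h3.mono ?_ (Eventually.of_forall fun p => ?_)
    · refine AEStronglyMeasurable.mul (AEStronglyMeasurable.mul ?_ ?_) ?_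
      · refine Measurable.aestronglyMeasurable ?_
        unfold sm
        fun_prop
      · refine Measurable.aestronglyMeasurable ?_
        refine ((sy_adm n).meas.comp measurable_snd).mul ?_
        rw [Ft_fun]
        exact (FourierTransform.fourier f : 𝓢(ℂ, ℂ)).continuous.measurable.comp measurable_snd
      · exact (g.continuous.measurable.comp measurable_fst).aestronglyMeasurable
    · simp only [Function.uncurry]
      rw [norm_mul, norm_mul, norm_ex, one_mul, norm_mul, norm_mul, norm_norm, norm_norm]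
      have := (sy_adm n).le1 p.2
      calc ‖sy n p.2‖ * ‖Ft f p.2‖ * ‖g p.1‖ ≤ 1 * ‖Ft f p.2‖ * ‖g p.1‖ := by gcongr
        _ = _ := by ring

theorem sym (n : ℕ) (f g : 𝓢(ℂ, ℂ)) : ∫ z, Tn n f z * g z = ∫ z, f z * Tn n g z := by
  have h1 : ∫ z, f z * Tn n g z = ∫ z, Tn n g z * f z :=
    integral_congr_ae (Eventually.of_forall fun z => mul_comm _ _)
  rw [h1, sym_half, sym_half]
  have h2 : ∫ ξ, sy n ξ * Ft g ξ * Ft f (-ξ) = ∫ ξ, sy n (-ξ) * Ft g (-ξ) * Ft f (- -ξ) :=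
    (integral_neg_eq_self (fun ξ => sy n ξ * Ft g ξ * Ft f (-ξ)) volume).symm
  rw [h2]
  refine integral_congr_ae (Eventually.of_forall fun ξ => ?_)
  simp only [neg_neg, sy_neg]
  ring

/-! ### rotations -/

/-- rotation by `a` -/
noncomputable def ro (a : Circle) : ℂ ≃ₗᵢ[ℝ] ℂ := rotation a

theorem ro_int (a : Circle) (f : ℂ → ℂ) : ∫ z, f (a * z) = ∫ z, f z := by
  have := (ro a).measurePreserving.integral_comp (ro a).toHomeomorph.measurableEmbedding f
  simpa [ro] using this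

theorem sm_rot (a : Circle) (x ξ : ℂ) : sm (a * x) (a * ξ) = sm x ξ := by
  have h : (a : ℂ).re ^ 2 + (a : ℂ).im ^ 2 = 1 := by
    have := Circle.normSq_coe a
    rw [Complex.normSq_apply] at this
    linarith
  unfold sm
  simp only [Complex.mul_re, Complex.mul_im]
  linear_combination (x.re * ξ.re + x.im * ξ.im) * h

theorem Ft_rot (f : 𝓢(ℂ, ℂ)) (hf : ∀ a z : ℂ, ‖a‖ = 1 → f (a * z) = f z) (a : Circle) (ξ : ℂ) :
    Ft f (a * ξ) = Ft f ξ := by
  unfold Ft
  rw [← ro_int a]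
  refine integral_congr_ae (Eventually.of_forall fun x => ?_)
  simp only
  rw [sm_rot, hf a x (Circle.norm_coe a)]

theorem sy_rot (n : ℕ) (a : Circle) (ξ : ℂ) : sy n (a * ξ) = (starRingEnd ℂ) a ^ (2 * n) * sy n ξ := by
  unfold sy bs
  have ha : (a : ℂ) ≠ 0 := Circle.coe_ne_zero a
  have h1 : (starRingEnd ℂ) (a : ℂ) = (a : ℂ)⁻¹ := by
    rw [← Circle.coe_inv_eq_conj, Circle.coe_inv]
  rw [map_mul, h1, pow_mul, ← mul_pow]
  congr 1
  by_cases hξ : ξ = 0
  · subst hξ; simp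
  · field_simp

/-- covariance -/
theorem Tn_rot (n : ℕ) (f : 𝓢(ℂ, ℂ)) (hf : ∀ a z : ℂ, ‖a‖ = 1 → f (a * z) = f z) (a : Circle) (z : ℂ) :
    Tn n f (a * z) = (starRingEnd ℂ) a ^ (2 * n) * Tn n f z := by
  rw [Tn_sy]
  unfold T
  rw [← ro_int a, ← integral_const_mul]
  refine integral_congr_ae (Eventually.of_forall fun ξ => ?_)
  simp only
  rw [sm_rot, Ft_rot f hf, sy_rot]
  ring

/-! ### polar coordinates -/

theorem int_normSqC (φ : ℝ → ℂ) :
    ∫ z : ℂ, φ (Complex.normSq z) = Real.pi * ∫ x in Ioi (0 : ℝ), φ x := by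
  rw [← Complex.integral_comp_polarCoord_symm]
  have h1 : ∀ q : ℝ × ℝ, q.1 • φ (Complex.normSq (Complex.polarCoord.symm q)) =
      ((q.1 : ℂ) * φ (q.1 ^ 2)) * 1 := by
    intro q
    have : Complex.normSq (Complex.polarCoord.symm q) = q.1 ^ 2 := by
      rw [Complex.normSq_eq_norm_sq, Complex.norm_polarCoord_symm, sq_abs]
    rw [this, Complex.real_smul, mul_one]
  simp_rw [h1]
  rw [polarCoord_target, Measure.volume_eq_prod,
    setIntegral_prod_mul (fun r : ℝ => (r : ℂ) * φ (r ^ 2)) (fun _ : ℝ => (1 : ℂ))]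
  have h2 : ∫ _y in Ioo (-Real.pi) Real.pi, (1 : ℂ) = 2 * Real.pi := by
    rw [setIntegral_const, Measure.real, Real.volume_Ioo, ENNReal.toReal_ofReal (by
      have := Real.pi_pos
      linarith), Complex.real_smul, mul_one]
    push_cast
    ring
  rw [h2]
  have h3 := integral_comp_rpow_Ioi_of_pos (g := φ) (p := 2) (by norm_num)
  have h4 : ∫ x in Ioi (0 : ℝ), (2 * x ^ ((2 : ℝ) - 1)) • φ (x ^ (2 : ℝ))
      = 2 * ∫ x in Ioi (0 : ℝ), (x : ℂ) * φ (x ^ 2) := by
    rw [← integral_const_mul]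
    refine setIntegral_congr_fun measurableSet_Ioi (fun x _ => ?_)
    have e : (2 : ℝ) - 1 = 1 := by norm_num
    simp only [e, Real.rpow_one, Real.rpow_two, Complex.real_smul]
    push_cast
    ring
  rw [h4] at h3
  rw [← h3]
  ring

theorem lint_normSq {φ : ℝ → ℝ≥0∞} (hφ : Measurable φ) :
    ∫⁻ z : ℂ, φ (Complex.normSq z) = ENNReal.ofReal Real.pi * ∫⁻ x in Ioi (0 : ℝ), φ x := by
  rw [← Complex.lintegral_comp_polarCoord_symm]
  have h1 : ∀ q : ℝ × ℝ, ENNReal.ofReal q.1 • φ (Complex.normSq (Complex.polarCoord.symm q)) =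
      (ENNReal.ofReal q.1 * φ (q.1 ^ 2)) * 1 := by
    intro q
    have : Complex.normSq (Complex.polarCoord.symm q) = q.1 ^ 2 := by
      rw [Complex.normSq_eq_norm_sq, Complex.norm_polarCoord_symm, sq_abs]
    rw [this, smul_eq_mul, mul_one]
  simp_rw [h1]
  have hm : Measurable fun r : ℝ => ENNReal.ofReal r * φ (r ^ 2) :=
    ENNReal.measurable_ofReal.mul (hφ.comp (measurable_id.pow_const 2))
  rw [polarCoord_target, Measure.volume_eq_prod, ← Measure.prod_restrict,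
    lintegral_prod_mul hm.aemeasurable aemeasurable_const]
  have h2 : ∫⁻ _y in Ioo (-Real.pi) Real.pi, (1 : ℝ≥0∞) = ENNReal.ofReal (2 * Real.pi) := by
    rw [setLIntegral_const, one_mul, Real.volume_Ioo]
    congr 1
    ring
  rw [h2]
  have h3 := lintegral_image_eq_lintegral_abs_deriv_mul (s := Ioi (0 : ℝ)) (f := fun x => x ^ 2)
    (f' := fun x => 2 * x) measurableSet_Ioi (fun x _ => by
      have := (hasDerivAt_pow 2 x).hasDerivWithinAt (s := Ioi (0 : ℝ))
      simpa using this)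
    (fun x hx y hy hxy => by
      have hx0 : (0 : ℝ) < x := hx
      have hy0 : (0 : ℝ) < y := hy
      exact (pow_left_inj₀ hx0.le hy0.le (by norm_num)).1 hxy) φ
  have h4 : (fun x : ℝ => x ^ 2) '' Ioi (0 : ℝ) = Ioi 0 := by
    ext y
    constructor
    · rintro ⟨x, hx, rfl⟩
      have hx0 : (0 : ℝ) < x := hx
      exact pow_pos hx0 2
    · intro hy
      exact ⟨√y, Real.sqrt_pos.2 hy, Real.sq_sqrt (le_of_lt hy)⟩
  rw [h4] at h3
  rw [h3]
  have h5 : ∫⁻ x in Ioi (0 : ℝ), ENNReal.ofReal |2 * x| * φ (x ^ 2) =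
      2 * ∫⁻ x in Ioi (0 : ℝ), ENNReal.ofReal x * φ (x ^ 2) := by
    rw [← lintegral_const_mul _ hm]
    refine setLIntegral_congr_fun measurableSet_Ioi fun x hx => ?_
    have hx0 : (0 : ℝ) < x := hx
    rw [abs_of_pos (by linarith), ENNReal.ofReal_mul (by norm_num), ENNReal.ofReal_ofNat]
    ring
  rw [h5, ENNReal.ofReal_mul (by norm_num), ENNReal.ofReal_ofNat]
  ring

end Pool.Agent.L5helper98.RD
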