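import Mathlib
import Pool.Agent.L5helper98.RD.C
import Pool.Agent.R227.IT2

/-! The bound of the one-dimensional operator near `q = 1`. -/

set_option autoImplicit false

open MeasureTheory Set ENNReal

namespace Pool.Agent.L5helper98.RD

open Pool.Agent.Helper187.Leg Pool.Agent.Helper187.Leg.KA

theorem pt_bd {u q : ℝ} (h0 : 0 < u) (h1 : u < 1) (hq : 1 < q) (hq2 : q ≤ 8 / 7) :
    (u * (1 - u)) ^ (-(3 / 4) : ℝ) * u ^ (1 / q - 1) ≤
      2 * u ^ (-(7 / 8) : ℝ) + 2 * (1 - u) ^ (-(3 / 4) : ℝ) := by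
  have hv : 0 < 1 - u := by linarith
  have hq0 : 0 < q := by linarith
  have e1 : u ^ (1 / q - 1) ≤ u ^ (-(1 / 8) : ℝ) := by
    refine Real.rpow_le_rpow_of_exponent_ge h0 h1.le ?_
    have : 7 / 8 ≤ 1 / q := by
      rw [le_div_iff₀ hq0]; linarith
    linarith
  have e2 : (u * (1 - u)) ^ (-(3 / 4) : ℝ) * u ^ (1 / q - 1) ≤
      u ^ (-(7 / 8) : ℝ) * (1 - u) ^ (-(3 / 4) : ℝ) := by
    rw [Real.mul_rpow h0.le hv.le]
    have e3 : u ^ (-(7 / 8) : ℝ) = u ^ (-(3 / 4) : ℝ) * u ^ (-(1 / 8) : ℝ) := by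
      rw [← Real.rpow_add h0]; norm_num
    rw [e3]
    have p1 : 0 < u ^ (-(3 / 4) : ℝ) := Real.rpow_pos_of_pos h0 _
    have p2 : 0 < (1 - u) ^ (-(3 / 4) : ℝ) := Real.rpow_pos_of_pos hv _
    calc u ^ (-(3 / 4) : ℝ) * (1 - u) ^ (-(3 / 4) : ℝ) * u ^ (1 / q - 1) ≤
          u ^ (-(3 / 4) : ℝ) * (1 - u) ^ (-(3 / 4) : ℝ) * u ^ (-(1 / 8) : ℝ) := by gcongr
      _ = _ := by ring
  refine e2.trans ?_
  have p1 : 0 < u ^ (-(7 / 8) : ℝ) := Real.rpow_pos_of_pos h0 _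
  have p2 : 0 < (1 - u) ^ (-(3 / 4) : ℝ) := Real.rpow_pos_of_pos hv _
  have half : ∀ {x s : ℝ}, 1 / 2 ≤ x → x ≤ 1 → -1 ≤ s → s ≤ 0 → x ^ s ≤ 2 := by
    intro x s hx hx1 hs hs0
    have hx0 : 0 < x := by linarith
    calc x ^ s ≤ x ^ (-1 : ℝ) := Real.rpow_le_rpow_of_exponent_ge hx0 hx1 hs
      _ = x⁻¹ := Real.rpow_neg_one x
      _ ≤ 2 := by
        rw [inv_le_comm₀ hx0 (by norm_num)]
        linarith
  rcases le_total u (1 / 2) with h | h
  · have := half (x := 1 - u) (s := -(3 / 4)) (by linarith) (by linarith) (by norm_num) (by norm_num)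
    nlinarith
  · have := half (x := u) (s := -(7 / 8)) h h1.le (by norm_num) (by norm_num)
    nlinarith

theorem int_u : ∫⁻ u in Ioo (0 : ℝ) 1, ENNReal.ofReal (u ^ (-(7 / 8) : ℝ)) = ENNReal.ofReal 8 := by
  have hi : IntervalIntegrable (fun u : ℝ => u ^ (-(7 / 8) : ℝ)) volume 0 1 :=
    intervalIntegral.intervalIntegrable_rpow' (by norm_num)
  have hi' : IntegrableOn (fun u : ℝ => u ^ (-(7 / 8) : ℝ)) (Ioo 0 1) := by
    rw [intervalIntegrable_iff_integrableOn_Ioo_of_le zero_le_one] at hi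
    exact hi
  rw [← ofReal_integral_eq_lintegral_ofReal hi' ?_]
  · congr 1
    rw [← integral_Ioc_eq_integral_Ioo, ← intervalIntegral.integral_of_le zero_le_one,
      integral_rpow (Or.inl (by norm_num))]
    norm_num
  · refine (ae_restrict_iff' measurableSet_Ioo).2 (Filter.Eventually.of_forall fun u hu => ?_)
    exact Real.rpow_nonneg hu.1.le _

theorem int_v : ∫⁻ u in Ioo (0 : ℝ) 1, ENNReal.ofReal ((1 - u) ^ (-(3 / 4) : ℝ)) = ENNReal.ofReal 4 := by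
  have hi0 : IntervalIntegrable (fun u : ℝ => u ^ (-(3 / 4) : ℝ)) volume 0 1 :=
    intervalIntegral.intervalIntegrable_rpow' (by norm_num)
  have hi : IntervalIntegrable (fun u : ℝ => (1 - u) ^ (-(3 / 4) : ℝ)) volume 0 1 := by
    have := hi0.comp_sub_left 1
    simp only [sub_zero, sub_self] at this
    exact this.symm
  have hi' : IntegrableOn (fun u : ℝ => (1 - u) ^ (-(3 / 4) : ℝ)) (Ioo 0 1) := by
    rw [intervalIntegrable_iff_integrableOn_Ioo_of_le zero_le_one] at hi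
    exact hi
  rw [← ofReal_integral_eq_lintegral_ofReal hi' ?_]
  · congr 1
    rw [← integral_Ioc_eq_integral_Ioo, ← intervalIntegral.integral_of_le zero_le_one,
      intervalIntegral.integral_comp_sub_left (fun u : ℝ => u ^ (-(3 / 4) : ℝ)) 1, sub_self, sub_zero,
      integral_rpow (Or.inl (by norm_num))]
    norm_num
  · refine (ae_restrict_iff' measurableSet_Ioo).2 (Filter.Eventually.of_forall fun u hu => ?_)
    exact Real.rpow_nonneg (by linarith [hu.2]) _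

theorem lam_bd (n : ℕ) {q : ℝ} (hq : 1 < q) (hq2 : q ≤ 8 / 7) :
    ∫⁻ u in Ioo (0 : ℝ) 1, ‖SS n (2 * u - 1)‖ₑ * ENNReal.ofReal (u ^ (1 / q - 1)) ≤
      ENNReal.ofReal (48 * √((n : ℝ) + 1)) := by
  have hm1 : Measurable fun u : ℝ => ENNReal.ofReal (u ^ (-(7 / 8) : ℝ)) :=
    ENNReal.measurable_ofReal.comp (measurable_id.pow_const _)
  calc ∫⁻ u in Ioo (0 : ℝ) 1, ‖SS n (2 * u - 1)‖ₑ * ENNReal.ofReal (u ^ (1 / q - 1))
      ≤ ∫⁻ u in Ioo (0 : ℝ) 1, ENNReal.ofReal (4 * √((n : ℝ) + 1)) *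
        (ENNReal.ofReal (u ^ (-(7 / 8) : ℝ)) + ENNReal.ofReal ((1 - u) ^ (-(3 / 4) : ℝ))) := by
        refine setLIntegral_mono' measurableSet_Ioo fun u hu => ?_
        have hv : 0 < 1 - u := by linarith [hu.2]
        have p1 : 0 < u ^ (-(7 / 8) : ℝ) := Real.rpow_pos_of_pos hu.1 _
        have p2 : 0 < (1 - u) ^ (-(3 / 4) : ℝ) := Real.rpow_pos_of_pos hv _
        have p3 : 0 < u ^ (1 / q - 1) := Real.rpow_pos_of_pos hu.1 _
        rw [← ENNReal.ofReal_add p1.le p2.le, ← ENNReal.ofReal_mul (by positivity),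
          Real.enorm_eq_ofReal_abs, ← ENNReal.ofReal_mul (abs_nonneg _)]
        refine ENNReal.ofReal_le_ofReal ?_
        have h1 := SS_unit n hu.1 hu.2
        have h2 := pt_bd hu.1 hu.2 hq hq2
        calc |SS n (2 * u - 1)| * u ^ (1 / q - 1)
            ≤ (2 * √((n : ℝ) + 1) * (u * (1 - u)) ^ (-(3 / 4) : ℝ)) * u ^ (1 / q - 1) := by gcongr
          _ = 2 * √((n : ℝ) + 1) * ((u * (1 - u)) ^ (-(3 / 4) : ℝ) * u ^ (1 / q - 1)) := by ring
          _ ≤ 2 * √((n : ℝ) + 1) * (2 * u ^ (-(7 / 8) : ℝ) + 2 * (1 - u) ^ (-(3 / 4) : ℝ)) := by gcongr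
          _ = _ := by ring
    _ = ENNReal.ofReal (4 * √((n : ℝ) + 1)) * (ENNReal.ofReal 8 + ENNReal.ofReal 4) := by
        rw [lintegral_const_mul' _ _ ENNReal.ofReal_ne_top, lintegral_add_left hm1, int_u, int_v]
    _ = ENNReal.ofReal (48 * √((n : ℝ) + 1)) := by
        rw [← ENNReal.ofReal_add (by norm_num) (by norm_num), ← ENNReal.ofReal_mul (by positivity)]
        congr 1
        ring

theorem toE {f : ℝ → ℝ} (hf : Continuous f) {R : ℝ} (hR : ∀ x, R ≤ x → f x = 0) {q : ℝ} (hq : 0 < q) :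
    ENNReal.ofReal (∫ x in Ioi (0 : ℝ), |f x| ^ q) = ∫⁻ x in Ioi (0 : ℝ), ‖f x‖ₑ ^ q := by
  have hc : Continuous fun x => |f x| ^ q := hf.abs.rpow_const fun x => Or.inr hq.le
  have hi : IntegrableOn (fun x => |f x| ^ q) (Ioi 0) :=
    Pool.Agent.R227.IT.intg hc R fun x hx => by rw [hR x hx, abs_zero, Real.zero_rpow hq.ne']
  rw [ofReal_integral_eq_lintegral_ofReal hi (Filter.Eventually.of_forall fun x => by positivity)]
  refine lintegral_congr fun x => ?_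
  rw [← ENNReal.ofReal_rpow_of_nonneg (abs_nonneg _) hq.le, Real.enorm_eq_ofReal_abs]

theorem oneD_near (n : ℕ) {q : ℝ} (hq : 1 < q) (hq2 : q ≤ 8 / 7) :
    Pool.Agent.Y282.RB.OneD n q (1 + 48 * √((n : ℝ) + 1)) := by
  intro h hh hR
  have hq0 : 0 < q := by linarith
  obtain ⟨R, hR0, hgR, hUR, hgc, hUc, hk⟩ := kform' n hh hR
  set g : ℝ → ℝ := fun x => x ^ n * iteratedDeriv n h x with hg
  set U : ℝ → ℝ := iteratedDeriv n (fun t => t ^ n * h t) with hU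
  set k : ℝ → ℝ≥0∞ := fun u => ‖SS n (2 * u - 1)‖ₑ with hkdef
  have hkm : Measurable k := ((SS_cont n).comp (by fun_prop : Continuous fun u : ℝ => 2 * u - 1)).enorm.measurable
  set Φ : ℝ → ℝ≥0∞ := fun t => ∫⁻ u in Ioo (0 : ℝ) 1, k u * (‖g (t / u)‖ₑ * ENNReal.ofReal u⁻¹) with hΦ
  have hgm : Measurable fun t => ‖g t‖ₑ := hgc.enorm.measurable
  have hΦm : Measurable Φ := by
    have : Measurable (Function.uncurry fun t u : ℝ => k u * (‖g (t / u)‖ₑ * ENNReal.ofReal u⁻¹)) :=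
      (hkm.comp measurable_snd).mul ((hgm.comp (measurable_fst.div measurable_snd)).mul
        (ENNReal.measurable_ofReal.comp measurable_snd.inv))
    exact this.lintegral_prod_right'
  have hpt : ∀ t ∈ Ioi (0 : ℝ), ‖U t‖ₑ ≤ ‖g t‖ₑ + Φ t := by
    intro t ht
    have ht0 : 0 < t := ht
    set a := min 1 (t / R) with ha
    have ha0 : 0 < a := lt_min one_pos (by positivity)
    have ha1 : a ≤ 1 := min_le_left _ _
    have hta : R ≤ t / a := by
      rw [le_div_iff₀ ha0]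
      have : a ≤ t / R := min_le_right _ _
      rw [le_div_iff₀ hR0] at this
      linarith
    rw [hk t a ha0 ha1 hta]
    refine (enorm_sub_le).trans (add_le_add le_rfl ?_)
    rw [intervalIntegral.integral_of_le ha1]
    refine (enorm_integral_le_lintegral_enorm _).trans ?_
    calc ∫⁻ u in Ioc a 1, ‖SS n (2 * u - 1) * ((t / u) ^ n * iteratedDeriv n h (t / u) / u)‖ₑ
        ≤ ∫⁻ u in Ioc (0 : ℝ) 1, ‖SS n (2 * u - 1) * ((t / u) ^ n * iteratedDeriv n h (t / u) / u)‖ₑ :=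
          lintegral_mono_set (Ioc_subset_Ioc_left ha0.le)
      _ = ∫⁻ u in Ioo (0 : ℝ) 1, ‖SS n (2 * u - 1) * ((t / u) ^ n * iteratedDeriv n h (t / u) / u)‖ₑ :=
          setLIntegral_congr Ioo_ae_eq_Ioc.symm
      _ = Φ t := by
          refine setLIntegral_congr_fun measurableSet_Ioo fun u hu => ?_
          simp only [hkdef, hg]
          rw [enorm_mul, div_eq_mul_inv, enorm_mul, Real.enorm_eq_ofReal (inv_nonneg.2 hu.1.le)]
  have hL := lam_bd n hq hq2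
  have hM := mink hq hkm hgm
  have h1 : (∫⁻ t in Ioi (0 : ℝ), ‖U t‖ₑ ^ q) ^ (1 / q) ≤
      ENNReal.ofReal (1 + 48 * √((n : ℝ) + 1)) * (∫⁻ t in Ioi (0 : ℝ), ‖g t‖ₑ ^ q) ^ (1 / q) := by
    calc (∫⁻ t in Ioi (0 : ℝ), ‖U t‖ₑ ^ q) ^ (1 / q)
        ≤ (∫⁻ t in Ioi (0 : ℝ), ((fun t => ‖g t‖ₑ) + Φ) t ^ q) ^ (1 / q) := by
          refine ENNReal.rpow_le_rpow (setLIntegral_mono' measurableSet_Ioi fun t ht => ?_) (by positivity)
          exact ENNReal.rpow_le_rpow (hpt t ht) hq0.le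
      _ ≤ (∫⁻ t in Ioi (0 : ℝ), ‖g t‖ₑ ^ q) ^ (1 / q) + (∫⁻ t in Ioi (0 : ℝ), Φ t ^ q) ^ (1 / q) :=
          ENNReal.lintegral_Lp_add_le hgm.aemeasurable hΦm.aemeasurable hq.le
      _ ≤ (∫⁻ t in Ioi (0 : ℝ), ‖g t‖ₑ ^ q) ^ (1 / q) + ((ENNReal.ofReal (48 * √((n : ℝ) + 1))) ^ q *
            ∫⁻ t in Ioi (0 : ℝ), ‖g t‖ₑ ^ q) ^ (1 / q) := by
          refine add_le_add le_rfl (ENNReal.rpow_le_rpow (hM.trans ?_) (by positivity))
          exact mul_le_mul_left (ENNReal.rpow_le_rpow hL hq0.le) _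
      _ = ENNReal.ofReal (1 + 48 * √((n : ℝ) + 1)) * (∫⁻ t in Ioi (0 : ℝ), ‖g t‖ₑ ^ q) ^ (1 / q) := by
          rw [ENNReal.mul_rpow_of_nonneg _ _ (by positivity), ← ENNReal.rpow_mul,
            mul_one_div_cancel hq0.ne', ENNReal.rpow_one, ENNReal.ofReal_add zero_le_one (by positivity),
            ENNReal.ofReal_one, add_mul, one_mul]
  have h2 := ENNReal.rpow_le_rpow h1 hq0.le
  rw [ENNReal.mul_rpow_of_nonneg _ _ hq0.le, ← ENNReal.rpow_mul, ← ENNReal.rpow_mul,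
    one_div_mul_cancel hq0.ne', ENNReal.rpow_one, ENNReal.rpow_one,
    ENNReal.ofReal_rpow_of_nonneg (by positivity) hq0.le, ← toE hUc hUR hq0, ← toE hgc hgR hq0,
    ← ENNReal.ofReal_mul (by positivity)] at h2
  exact (ENNReal.ofReal_le_ofReal_iff (mul_nonneg (by positivity)
    (integral_nonneg fun x => by positivity))).1 h2

end Pool.Agent.L5helper98.RD
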