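import Mathlib
import Pool.Agent.L5helper98.RD.D
import Pool.Agent.R227.IT6
import Pool.Agent.Y282.RB.B1
import Pool.Agent.Y282.RB.B2

/-! The bound of the one-dimensional operator for `1 < q ≤ 2`. -/

set_option autoImplicit false

open MeasureTheory Set Filter Topology Finset

namespace Pool.Agent.L5helper98.RD

open Pool.Agent

theorem oneD_two {n : ℕ} (hn : 1 ≤ n) : Y282.RB.OneD n 2 1 := by
  have hs : Y282.RB.Star n 2 := by
    intro γ
    have e1 : (2:ℝ) / 2 - 1 = 0 := by norm_num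
    rw [e1, Real.rpow_zero, mul_one]
    have h2 : ∀ y : ℝ, |y| ^ (2:ℝ) = y ^ 2 := by
      intro y
      rw [Real.rpow_two, sq_abs]
    rw [h2, h2]
    have e2 : ∀ j ∈ range n, Y282.RB.yy (1 / 2) γ j * (γ j - γ (j + 1)) = 1 / 2 * (γ j ^ 2 - γ (j + 1) ^ 2) := by
      intro j _
      unfold Y282.RB.yy
      have e3 : Y282.RB.th (1 / 2) j = 1 / 2 := by
        unfold Y282.RB.th
        have : (2 * (j : ℝ) + 1) ≠ 0 := by positivity
        field_simp
        ring
      rw [e3]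
      ring
    rw [sum_congr rfl e2, ← mul_sum, sum_range_sub' (fun j => γ j ^ 2)]
    linarith
  have := Y282.RB.B2.main Y282.RB.B1.main n 2 hn le_rfl hs
  have hC : Y282.RB.Cn 2 n = 1 := by
    unfold Y282.RB.Cn
    refine prod_eq_one fun j _ => ?_
    have e1 : (j : ℝ) + 1 - 1 / 2 = j + 1 / 2 := by ring
    rw [e1]
    exact div_self (by positivity)
  rwa [hC] at this

theorem oneD_mono {n : ℕ} {q C C' : ℝ} (hq : 0 < q) (hC : 0 ≤ C) (h : C ≤ C') (O : Y282.RB.OneD n q C) :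
    Y282.RB.OneD n q C' := by
  intro f hf hR
  refine (O f hf hR).trans ?_
  exact mul_le_mul_of_nonneg_right (Real.rpow_le_rpow hC h hq.le)
    (integral_nonneg fun x => by positivity)

theorem oneD_upper0 {n : ℕ} (hn : 1 ≤ n) {q : ℝ} (hq : 1 < q) (hq2 : q ≤ 2) :
    Y282.RB.OneD n q ((1 + 48 * √((n : ℝ) + 1)) ^ (2 / q - 1)) := by
  set C : ℝ := 1 + 48 * √((n : ℝ) + 1) with hC
  have hC0 : 0 < C := by positivity
  rcases hq2.eq_or_lt with rfl | h2
  · have : (2 : ℝ) / 2 - 1 = 0 := by norm_num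
    rw [this, Real.rpow_zero]
    exact oneD_two hn
  intro h hh hR
  set A := ∫ x in Ioi (0 : ℝ), |iteratedDeriv n (fun t => t ^ n * h t) x| ^ q
  set B := ∫ x in Ioi (0 : ℝ), |x ^ n * iteratedDeriv n h x| ^ q
  have hq0 : 0 < q := by linarith
  set s : ℝ → ℝ := fun r => (1 / q - 1 / 2) / (1 / r - 1 / 2) with hs
  have hs1 : s 1 = 2 / q - 1 := by
    simp only [hs]; field_simp; norm_num
  have hcont : ContinuousAt s 1 := by
    refine ContinuousAt.div continuousAt_const ?_ (by norm_num)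
    exact (ContinuousAt.div continuousAt_const continuousAt_id (by norm_num)).sub continuousAt_const
  have hten : Tendsto (fun r => (C ^ s r) ^ q * B) (𝓝[>] (1 : ℝ)) (𝓝 ((C ^ (2 / q - 1)) ^ q * B)) := by
    have h1 : ContinuousAt (fun r => (C ^ s r) ^ q * B) 1 := by
      refine ContinuousAt.mul ?_ continuousAt_const
      refine ContinuousAt.rpow_const ?_ (Or.inr hq0.le)
      exact ContinuousAt.rpow continuousAt_const hcont (Or.inl hC0.ne')
    have h2 := h1.tendsto
    rw [hs1] at h2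
    exact h2.mono_left nhdsWithin_le_nhds
  refine ge_of_tendsto hten ?_
  have hm : (1 : ℝ) < min q (8 / 7) := lt_min hq (by norm_num)
  filter_upwards [Ioo_mem_nhdsGT hm] with r hr
  have hr1 : r < q := lt_of_lt_of_le hr.2 (min_le_left _ _)
  have hr2 : r ≤ 8 / 7 := hr.2.le.trans (min_le_right _ _)
  have key := R227.IT.interp hn (p₀ := r) (p := q) (p₁ := 2) (C₀ := C) (C₁ := 1) hr.1 hr1 h2 hC0.le
    zero_le_one (oneD_near n hr.1 hr2) (oneD_two hn) (s := s r) rfl
  rw [Real.one_rpow, one_mul] at key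
  exact key h hh hR

theorem oneD_upper {n : ℕ} (hn : 1 ≤ n) {q : ℝ} (hq : 1 < q) (hq2 : q ≤ 2) :
    Y282.RB.OneD n q ((69 * √(n : ℝ)) ^ (2 / q - 1)) := by
  have hn1 : (1 : ℝ) ≤ n := by exact_mod_cast hn
  have hq0 : 0 < q := by linarith
  refine oneD_mono hq0 (by positivity) ?_ (oneD_upper0 hn hq hq2)
  refine Real.rpow_le_rpow (by positivity) ?_ ?_
  · have h1 : √((n : ℝ) + 1) ≤ 1.415 * √(n : ℝ) := by
      rw [Real.sqrt_le_left (by positivity), mul_pow, Real.sq_sqrt (by positivity)]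
      nlinarith
    have h2 : 1 ≤ √(n : ℝ) := Real.one_le_sqrt.2 hn1
    nlinarith
  · have : 1 ≤ 2 / q := by rw [le_div_iff₀ hq0]; linarith
    linarith

end Pool.Agent.L5helper98.RD
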