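import Mathlib
import Pool.Agent.L5helper98.RD.I
import Pool.Agent.L5helper98.RD.E
import Pool.Agent.L5helper98.RD.G
import Pool.Agent.Y282.RB.A
import Pool.Agent.Y282.RB.A1
import Pool.Agent.Y282.RB.A3
import Pool.Agent.Y282.RB.A4
import Pool.Agent.Y282.RB.F
import Pool.Agent.R227.IT6

/-! Radial functions: upper bound and lower bound. -/

set_option autoImplicit false

open MeasureTheory Set Filter Topology ENNReal
open scoped SchwartzMap

namespace Pool.Agent.L5helper98.RD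

open Pool.Agent Pool.Agent.Y282.RB

/-- radial Schwartz functions -/
def Radial (f : 𝓢(ℂ, ℂ)) : Prop := ∀ a z : ℂ, ‖a‖ = 1 → f (a * z) = f z

theorem eL {p : ℝ} (hp : 0 < p) (g : ℂ → ℂ) :
    eLpNorm g (ENNReal.ofReal p) volume = (∫⁻ x, ‖g x‖ₑ ^ p) ^ (1 / p) := by
  rw [eLpNorm_eq_lintegral_rpow_enorm_toReal (by simpa using hp) ENNReal.ofReal_ne_top,
    ENNReal.toReal_ofReal hp.le]

/-- Hölder's inequality -/
theorem hol {p q : ℝ} (hpq : p.HolderConjugate q) {f g : ℂ → ℂ} (hf : Continuous f) (hg : Continuous g) :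
    ‖∫ z, f z * g z‖ₑ ≤ eLpNorm f (ENNReal.ofReal p) volume * eLpNorm g (ENNReal.ofReal q) volume := by
  rw [eL hpq.pos, eL hpq.symm.pos]
  refine (enorm_integral_le_lintegral_enorm _).trans ?_
  have := ENNReal.lintegral_mul_le_Lp_mul_Lq volume hpq hf.enorm.aemeasurable hg.enorm.aemeasurable
  simp only [Pi.mul_apply] at this
  simpa only [enorm_mul] using this

/-- the bound for `z ^ (2 n) g(|z| ^ 2)` -/
theorem rad_bd {n : ℕ} {q C : ℝ} (hq : 1 ≤ q) (hC : 0 ≤ C) (O : OneD n q C) {g : ℝ → ℂ}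
    (hg : ContDiff ℝ (⊤ : ℕ∞) g) (hgc : HasCompactSupport g) :
    eLpNorm (Tn n (rad n g)) (ENNReal.ofReal q) (volume : Measure ℂ)
      ≤ ENNReal.ofReal C * eLpNorm (rad n g) (ENNReal.ofReal q) (volume : Measure ℂ) :=
  A.main A1.main A2.main A3.main A4.main n q C hq hC O g hg hgc

theorem tst_compact {γ : ℝ → ℂ} (hγ : Tst γ) : HasCompactSupport γ := by
  obtain ⟨-, ⟨δ, -, h1⟩, R, h2⟩ := hγ
  refine HasCompactSupport.intro (isCompact_Icc (a := δ) (b := R)) fun x hx => ?_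
  by_cases h : x ≤ δ
  · exact h1 x h
  · refine h2 x ?_
    by_contra hR
    exact hx ⟨(not_le.1 h).le, (not_le.1 hR).le⟩

/-- division by `s ^ n` -/
theorem tst_div {γ : ℝ → ℂ} (hγ : Tst γ) (n : ℕ) : Tst fun s => γ s * ((s : ℂ) ^ n)⁻¹ := by
  obtain ⟨h0, ⟨δ, hδ, h1⟩, R, h2⟩ := hγ
  refine ⟨?_, ⟨δ, hδ, fun x hx => by simp only [h1 x hx, zero_mul]⟩,
    ⟨R, fun x hx => by simp only [h2 x hx, zero_mul]⟩⟩
  rw [contDiff_iff_contDiffAt]
  intro x
  rcases lt_or_ge x δ with hx | hx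
  · refine (contDiffAt_const (c := (0 : ℂ))).congr_of_eventuallyEq ?_
    filter_upwards [Iio_mem_nhds hx] with y hy
    rw [h1 y (le_of_lt hy), zero_mul]
  · have hx0 : 0 < x := by linarith
    refine h0.contDiffAt.mul (ContDiffAt.inv ?_ ?_)
    · exact (Complex.ofRealCLM.contDiff.pow n).contDiffAt
    · exact pow_ne_zero _ (Complex.ofReal_ne_zero.2 hx0.ne')

/-- the phase -/
theorem phase {n : ℕ} {u : ℂ → ℂ} (hu : ∀ (a : Circle) (z : ℂ), u (a * z) = (starRingEnd ℂ) a ^ (2 * n) * u z)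
    (z : ℂ) : ∃ c : ℂ, ‖c‖ = 1 ∧ u z = c ^ (2 * n) * u ((√(Complex.normSq z) : ℝ) : ℂ) ∧
      (starRingEnd ℂ) c * ((√(Complex.normSq z) : ℝ) : ℂ) = z := by
  have h2 : √(Complex.normSq z) = ‖z‖ := rfl
  rw [h2]
  by_cases hz : z = 0
  · subst hz
    exact ⟨1, by simp, by simp, by simp⟩
  · have hn : (‖z‖ : ℂ) ≠ 0 := Complex.ofReal_ne_zero.2 (norm_ne_zero_iff.2 hz)
    have ha : ‖z / (‖z‖ : ℂ)‖ = 1 := by
      rw [norm_div, Complex.norm_real, norm_norm]
      exact div_self (norm_ne_zero_iff.2 hz)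
    set a : Circle := ⟨z / (‖z‖ : ℂ), by simpa [Submonoid.unitSphere] using ha⟩ with hadef
    have ha' : (a : ℂ) = z / (‖z‖ : ℂ) := rfl
    refine ⟨(starRingEnd ℂ) (a : ℂ), ?_, ?_, ?_⟩
    · rw [Complex.norm_conj]; exact Circle.norm_coe a
    · rw [← hu a, ha', div_mul_cancel₀ _ hn]
    · rw [Complex.conj_conj, ha', div_mul_cancel₀ _ hn]

theorem upper_gen {n : ℕ} {p q C : ℝ} (hpq : p.HolderConjugate q) (hC : 0 ≤ C) (O : OneD n q C)
    (f : 𝓢(ℂ, ℂ)) (hf : Radial f) :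
    eLpNorm (Tn n f) (ENNReal.ofReal p) volume ≤
      ENNReal.ofReal C * eLpNorm f (ENNReal.ofReal p) volume := by
  have hp0 : 0 < p := hpq.pos
  have hq0 : 0 < q := hpq.symm.pos
  set u : ℂ → ℂ := Tn n f with hu
  have huc : Continuous u := Tn_cont n f
  have hur : ∀ (a : Circle) (z : ℂ), u (a * z) = (starRingEnd ℂ) a ^ (2 * n) * u z := Tn_rot n f hf
  set v : ℝ → ℂ := fun s => u ((√s : ℝ) : ℂ) with hv
  have hvc : Continuous v := huc.comp (Complex.continuous_ofReal.comp Real.continuous_sqrt)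
  set N : ℝ≥0∞ := eLpNorm f (ENNReal.ofReal p) volume with hN
  have hNf : N ≠ ∞ := (f.memLp (ENNReal.ofReal p) volume).eLpNorm_ne_top
  set P : ℝ≥0∞ := ENNReal.ofReal Real.pi with hP
  have hP0 : P ≠ 0 := by simp [hP, Real.pi_pos]
  have hPt : P ≠ ∞ := ENNReal.ofReal_ne_top
  -- the test inequality
  have htest : ∀ γ : ℝ → ℂ, Tst γ → ‖∫ x in Ioi (0 : ℝ), v x * γ x‖ₑ ≤
      (ENNReal.ofReal C * N * P ^ (1 / q) * P⁻¹) * (∫⁻ x in Ioi (0 : ℝ), ‖γ x‖ₑ ^ q) ^ (1 / q) := by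
    intro γ hγ
    set g : ℝ → ℂ := fun s => γ s * ((s : ℂ) ^ n)⁻¹ with hg
    have hgt : Tst g := tst_div hγ n
    obtain ⟨G, hG, -, -⟩ := K2.main n g hgt.1 (tst_compact hgt)
    have hγ0 : γ 0 = 0 := by
      obtain ⟨-, ⟨δ, hδ, h1⟩, -⟩ := hγ
      exact h1 0 hδ.le
    have hγm : Measurable fun x => ‖γ x‖ₑ ^ q := hγ.1.continuous.enorm.measurable.pow_const q
    have e1 : ∀ z, u z * G z = v (Complex.normSq z) * γ (Complex.normSq z) := by
      intro z
      obtain ⟨c, hc, h1, h2⟩ := phase hur z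
      rw [h1, hG]
      unfold rad
      simp only [hg, hv]
      by_cases hz : z = 0
      · subst hz
        simp [hγ0]
      · have hs : ((Complex.normSq z : ℝ) : ℂ) ≠ 0 :=
          Complex.ofReal_ne_zero.2 (by rw [Ne, Complex.normSq_eq_zero]; exact hz)
        have hcc : c * (starRingEnd ℂ) c = 1 := by
          rw [Complex.mul_conj, Complex.normSq_eq_norm_sq, hc]; simp
        have hz2 : c ^ (2 * n) * z ^ (2 * n) = ((Complex.normSq z : ℝ) : ℂ) ^ n := by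
          rw [← mul_pow, ← h2, ← mul_assoc, hcc, one_mul, pow_mul]
          congr 1
          rw [← Complex.ofReal_pow, Real.sq_sqrt (Complex.normSq_nonneg _)]
          rw [h2]
        calc c ^ (2 * n) * u ((√(Complex.normSq z) : ℝ) : ℂ) *
              (z ^ (2 * n) * (γ (Complex.normSq z) * (((Complex.normSq z : ℝ) : ℂ) ^ n)⁻¹))
            = (c ^ (2 * n) * z ^ (2 * n)) * (((Complex.normSq z : ℝ) : ℂ) ^ n)⁻¹ *
              (u ((√(Complex.normSq z) : ℝ) : ℂ) * γ (Complex.normSq z)) := by ring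
          _ = u ((√(Complex.normSq z) : ℝ) : ℂ) * γ (Complex.normSq z) := by
              rw [hz2, mul_inv_cancel₀ (pow_ne_zero n hs), one_mul]
    have e2 : ∫ z, u z * G z = Real.pi * ∫ x in Ioi (0 : ℝ), v x * γ x := by
      simp_rw [e1]
      exact int_normSqC fun x => v x * γ x
    have e3 : ∫⁻ z, ‖G z‖ₑ ^ q = P * ∫⁻ x in Ioi (0 : ℝ), ‖γ x‖ₑ ^ q := by
      rw [← lint_normSq hγm]
      refine lintegral_congr fun z => ?_
      congr 1
      rw [hG]
      unfold rad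
      simp only [hg]
      by_cases hz : z = 0
      · subst hz
        simp [hγ0]
      · have hs : ((Complex.normSq z : ℝ) : ℂ) ≠ 0 :=
          Complex.ofReal_ne_zero.2 (by rw [Ne, Complex.normSq_eq_zero]; exact hz)
        rw [← ofReal_norm, ← ofReal_norm (γ _)]
        congr 1
        rw [norm_mul, norm_mul, norm_inv, norm_pow, norm_pow, Complex.norm_real,
          Real.norm_of_nonneg (Complex.normSq_nonneg z), pow_mul, Complex.sq_norm]
        have h5 : Complex.normSq z ≠ 0 := by rw [Ne, Complex.normSq_eq_zero]; exact hz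
        field_simp
    have e4 : ‖∫ z, u z * G z‖ₑ ≤ N * (ENNReal.ofReal C * (P * ∫⁻ x in Ioi (0 : ℝ), ‖γ x‖ₑ ^ q) ^ (1 / q)) := by
      have h6 : ∫ z, u z * G z = ∫ z, f z * Tn n G z := sym n f G
      rw [h6]
      refine (hol hpq f.continuous (Tn_cont n G)).trans ?_
      refine mul_le_mul_right ?_ N
      have h7 := rad_bd hpq.symm.lt.le hC O hgt.1 (tst_compact hgt)
      rw [← hG] at h7
      refine h7.trans (le_of_eq ?_)
      rw [eL hq0 G, e3]
    rw [e2, enorm_mul] at e4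
    have e5 : ‖((Real.pi : ℝ) : ℂ)‖ₑ = P := by
      rw [← ofReal_norm, Complex.norm_real, Real.norm_of_nonneg Real.pi_pos.le]
    rw [e5] at e4
    have e6 : ‖∫ x in Ioi (0 : ℝ), v x * γ x‖ₑ =
        P⁻¹ * (P * ‖∫ x in Ioi (0 : ℝ), v x * γ x‖ₑ) := by
      rw [← mul_assoc, ENNReal.inv_mul_cancel hP0 hPt, one_mul]
    rw [e6]
    refine (mul_le_mul_right e4 _).trans (le_of_eq ?_)
    rw [ENNReal.mul_rpow_of_nonneg _ _ (by positivity)]
    ring
  have hK : ENNReal.ofReal C * N * P ^ (1 / q) * P⁻¹ ≠ ∞ := by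
    refine ENNReal.mul_ne_top (ENNReal.mul_ne_top (ENNReal.mul_ne_top ENNReal.ofReal_ne_top hNf) ?_) ?_
    · exact ENNReal.rpow_ne_top_of_nonneg (by positivity) hPt
    · exact ENNReal.inv_ne_top.2 hP0
  have hd := dual1 hvc hpq hK htest
  have hvm : Measurable fun x => ‖v x‖ₑ ^ p := hvc.enorm.measurable.pow_const p
  have h8 : ∫⁻ z, ‖u z‖ₑ ^ p = P * ∫⁻ x in Ioi (0 : ℝ), ‖v x‖ₑ ^ p := by
    rw [← lint_normSq hvm]
    refine lintegral_congr fun z => ?_
    obtain ⟨c, hc, h1, -⟩ := phase hur z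
    congr 1
    rw [h1, ← ofReal_norm, ← ofReal_norm (v _), norm_mul, norm_pow, hc, one_pow, one_mul]
  rw [eL hp0, h8]
  have h9 : P * (ENNReal.ofReal C * N * P ^ (1 / q) * P⁻¹) ^ p = (ENNReal.ofReal C * N) ^ p := by
    rw [ENNReal.mul_rpow_of_nonneg _ _ hp0.le, ENNReal.mul_rpow_of_nonneg _ _ hp0.le,
      ← ENNReal.rpow_mul, ← ENNReal.rpow_neg_one P, ← ENNReal.rpow_mul]
    have h10 : 1 / q * p = p - 1 := by
      have := hpq.inv_add_inv_eq_one
      have hq1 : 1 / q = 1 - 1 / p := by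
        rw [one_div, one_div]; linarith
      rw [hq1]; field_simp
    rw [h10]
    have h11 : P * ((ENNReal.ofReal C * N) ^ p * P ^ (p - 1) * P ^ (-1 * p)) =
        (ENNReal.ofReal C * N) ^ p * (P ^ (1 : ℝ) * P ^ (p - 1) * P ^ (-1 * p)) := by
      rw [ENNReal.rpow_one]; ring
    rw [h11, ← ENNReal.rpow_add _ _ hP0 hPt, ← ENNReal.rpow_add _ _ hP0 hPt]
    have : 1 + (p - 1) + -1 * p = 0 := by ring
    rw [this, ENNReal.rpow_zero, mul_one]
  calc (P * ∫⁻ x in Ioi (0 : ℝ), ‖v x‖ₑ ^ p) ^ (1 / p)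
      ≤ ((ENNReal.ofReal C * N) ^ p) ^ (1 / p) := by
        refine ENNReal.rpow_le_rpow ?_ (by positivity)
        rw [← h9]
        exact mul_le_mul_right hd P
    _ = ENNReal.ofReal C * N := by
        rw [← ENNReal.rpow_mul, mul_one_div_cancel hp0.ne', ENNReal.rpow_one]

theorem lower_gen {n : ℕ} {p q c : ℝ} (hpq : p.HolderConjugate q) (hc : 0 ≤ c)
    (hall : ∀ f : 𝓢(ℂ, ℂ), Radial f → eLpNorm (Tn n f) (ENNReal.ofReal p) volume ≤
      ENNReal.ofReal c * eLpNorm f (ENNReal.ofReal p) volume) : OneD n q c := by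
  intro h hh hR
  have hp0 : 0 < p := hpq.pos
  have hq0 : 0 < q := hpq.symm.pos
  obtain ⟨R, hR0, hgR, hUR, hgc, hUc, -⟩ := kform' n hh hR
  set U : ℝ → ℝ := iteratedDeriv n (fun t => t ^ n * h t) with hU
  set g0 : ℝ → ℝ := fun x => x ^ n * iteratedDeriv n h x with hg0
  set P : ℝ≥0∞ := ENNReal.ofReal Real.pi with hP
  have hP0 : P ≠ 0 := by simp [hP, Real.pi_pos]
  have hPt : P ≠ ∞ := ENNReal.ofReal_ne_top
  -- the function `G`
  have hds : ContDiff ℝ (⊤ : ℕ∞) (iteratedDeriv n h) := Y282.RB.F.smooth_iter hh n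
  obtain ⟨S, hS⟩ := hR
  have hdz : ∀ x, S + 1 ≤ x → iteratedDeriv n h x = 0 := by
    intro x hx
    have h1 : h =ᶠ[𝓝 x] fun _ => (0 : ℝ) := by
      have h2 : Ioi S ∈ 𝓝 x := Ioi_mem_nhds (by linarith)
      filter_upwards [h2] with y hy
      exact hS y (le_of_lt hy)
    rw [Filter.EventuallyEq.iteratedDeriv_eq n h1]
    simp
  set gC : ℝ → ℂ := fun x => ((iteratedDeriv n h x * Real.smoothTransition (x + 2) : ℝ) : ℂ) with hgC
  have hgCs : ContDiff ℝ (⊤ : ℕ∞) gC := by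
    refine Complex.ofRealCLM.contDiff.comp (hds.mul ?_)
    exact Real.smoothTransition.contDiff.comp (contDiff_id.add contDiff_const)
  have hgCc : HasCompactSupport gC := by
    refine HasCompactSupport.intro (isCompact_Icc (a := -2) (b := S + 1)) fun x hx => ?_
    simp only [hgC]
    by_cases h3 : x ≤ -2
    · rw [Real.smoothTransition.zero_of_nonpos (by linarith), mul_zero, Complex.ofReal_zero]
    · rw [hdz x (by
        by_contra h4
        exact hx ⟨(not_le.1 h3).le, (not_le.1 h4).le⟩), zero_mul, Complex.ofReal_zero]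
  obtain ⟨G, hG, -, -⟩ := K2.main n gC hgCs hgCc
  set hC : ℝ → ℂ := fun x => ((h x : ℝ) : ℂ) with hhC
  have hhCs : ContDiff ℝ (⊤ : ℕ∞) hC := Complex.ofRealCLM.contDiff.comp hh
  have hcast : iteratedDeriv n hC = fun x => ((iteratedDeriv n h x : ℝ) : ℂ) := R227.IT.iter_cast hh n
  have hGe : (G : ℂ → ℂ) = rad n (iteratedDeriv n hC) := by
    rw [hG]
    funext z
    unfold rad
    rw [hcast]
    simp only [hgC]
    rw [Real.smoothTransition.one_of_one_le (by linarith [Complex.normSq_nonneg z]), mul_one]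
  have hTG : ∀ z, Tn n G z = ((U (Complex.normSq z) : ℝ) : ℂ) := by
    intro z
    have e1 : Tn n G z = Tn n (rad n (iteratedDeriv n hC)) z := by rw [hGe]
    rw [e1, A2.main n hC hhCs ⟨S, fun x hx => by simp only [hhC, hS x hx, Complex.ofReal_zero]⟩ z]
    have e2 : (fun t : ℝ => (t : ℂ) ^ n * hC t) = fun t : ℝ => ((t ^ n * h t : ℝ) : ℂ) := by
      funext t; simp only [hhC]; push_cast; rfl
    have hf : ContDiff ℝ (⊤ : ℕ∞) (fun t : ℝ => t ^ n * h t) := (contDiff_id.pow n).mul hh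
    rw [e2, R227.IT.iter_cast hf n]
  have hgm : Measurable fun x => ‖g0 x‖ₑ ^ q := hgc.enorm.measurable.pow_const q
  have hGn : ∫⁻ z, ‖G z‖ₑ ^ q = P * ∫⁻ x in Ioi (0 : ℝ), ‖g0 x‖ₑ ^ q := by
    rw [← lint_normSq hgm]
    refine lintegral_congr fun z => ?_
    congr 1
    rw [hGe, hcast]
    unfold rad
    simp only [hg0]
    rw [← ofReal_norm, ← ofReal_norm ((Complex.normSq z) ^ n * iteratedDeriv n h (Complex.normSq z))]
    congr 1
    rw [norm_mul, norm_mul, Complex.norm_real, norm_pow, norm_pow, pow_mul, Complex.sq_norm,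
      Real.norm_of_nonneg (Complex.normSq_nonneg z)]
  set I : ℝ≥0∞ := (∫⁻ x in Ioi (0 : ℝ), ‖g0 x‖ₑ ^ q) ^ (1 / q) with hI
  have hIf : I ≠ ∞ := by
    rw [hI, ← toE hgc hgR hq0]
    exact ENNReal.rpow_ne_top_of_nonneg (by positivity) ENNReal.ofReal_ne_top
  set v : ℝ → ℂ := fun x => ((U x : ℝ) : ℂ) with hv
  have hvc : Continuous v := Complex.continuous_ofReal.comp hUc
  have htest : ∀ γ : ℝ → ℂ, Tst γ → ‖∫ x in Ioi (0 : ℝ), v x * γ x‖ₑ ≤
      (ENNReal.ofReal c * I) * (∫⁻ x in Ioi (0 : ℝ), ‖γ x‖ₑ ^ p) ^ (1 / p) := by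
    intro γ hγ
    obtain ⟨F, hF, -, -⟩ := K2.main 0 γ hγ.1 (tst_compact hγ)
    have hF' : ∀ z, F z = γ (Complex.normSq z) := by
      intro z
      rw [hF]
      unfold rad
      rw [mul_zero, pow_zero, one_mul]
    have hFr : Radial F := by
      intro a z ha
      rw [hF', hF', map_mul, Complex.normSq_eq_norm_sq a, ha]
      norm_num
    have hγm : Measurable fun x => ‖γ x‖ₑ ^ p := hγ.1.continuous.enorm.measurable.pow_const p
    have e2 : ∫ z, Tn n G z * F z = Real.pi * ∫ x in Ioi (0 : ℝ), v x * γ x := by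
      simp_rw [hTG, hF']
      exact int_normSqC fun x => v x * γ x
    have e3 : ∫⁻ z, ‖F z‖ₑ ^ p = P * ∫⁻ x in Ioi (0 : ℝ), ‖γ x‖ₑ ^ p := by
      rw [← lint_normSq hγm]
      refine lintegral_congr fun z => ?_
      rw [hF']
    have e4 : ‖∫ z, Tn n G z * F z‖ₑ ≤ (ENNReal.ofReal c * (P * ∫⁻ x in Ioi (0 : ℝ), ‖γ x‖ₑ ^ p) ^ (1 / p)) *
        (P * ∫⁻ x in Ioi (0 : ℝ), ‖g0 x‖ₑ ^ q) ^ (1 / q) := by
      have h6 : ∫ z, Tn n G z * F z = ∫ z, Tn n F z * G z := by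
        rw [sym n G F]
        exact integral_congr_ae (Eventually.of_forall fun z => mul_comm _ _)
      rw [h6]
      refine (hol hpq (Tn_cont n F) G.continuous).trans ?_
      rw [eL hq0 G, hGn]
      refine mul_le_mul_left ?_ _
      refine (hall F hFr).trans (le_of_eq ?_)
      rw [eL hp0 F, e3]
    rw [e2, enorm_mul] at e4
    have e5 : ‖((Real.pi : ℝ) : ℂ)‖ₑ = P := by
      rw [← ofReal_norm, Complex.norm_real, Real.norm_of_nonneg Real.pi_pos.le]
    rw [e5, ENNReal.mul_rpow_of_nonneg _ _ (by positivity), ENNReal.mul_rpow_of_nonneg _ _ (by positivity),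
      ← hI] at e4
    have e6 : P ^ (1 / p) * P ^ (1 / q) = P := by
      rw [← ENNReal.rpow_add _ _ hP0 hPt]
      have : 1 / p + 1 / q = 1 := by
        have := hpq.inv_add_inv_eq_one
        rw [one_div, one_div]; exact this
      rw [this, ENNReal.rpow_one]
    have e7 : ENNReal.ofReal c * (P ^ (1 / p) * (∫⁻ x in Ioi (0 : ℝ), ‖γ x‖ₑ ^ p) ^ (1 / p)) * (P ^ (1 / q) * I) =
        P * ((ENNReal.ofReal c * I) * (∫⁻ x in Ioi (0 : ℝ), ‖γ x‖ₑ ^ p) ^ (1 / p)) := by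
      calc ENNReal.ofReal c * (P ^ (1 / p) * (∫⁻ x in Ioi (0 : ℝ), ‖γ x‖ₑ ^ p) ^ (1 / p)) * (P ^ (1 / q) * I)
          = (P ^ (1 / p) * P ^ (1 / q)) *
              ((ENNReal.ofReal c * I) * (∫⁻ x in Ioi (0 : ℝ), ‖γ x‖ₑ ^ p) ^ (1 / p)) := by ring
        _ = _ := by rw [e6]
    rw [e7] at e4
    exact (ENNReal.mul_le_mul_iff_right hP0 hPt).1 e4
  have hd := dual1 hvc hpq.symm (ENNReal.mul_ne_top ENNReal.ofReal_ne_top hIf) htest
  have e8 : ∫⁻ x in Ioi (0 : ℝ), ‖v x‖ₑ ^ q = ENNReal.ofReal (∫ x in Ioi (0 : ℝ), |U x| ^ q) := by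
    rw [toE hUc hUR hq0]
    refine lintegral_congr fun x => ?_
    simp only [hv]
    rw [← ofReal_norm, ← ofReal_norm (U x), Complex.norm_real]
  rw [e8, ENNReal.mul_rpow_of_nonneg _ _ hq0.le, hI, ← ENNReal.rpow_mul, one_div_mul_cancel hq0.ne',
    ENNReal.rpow_one, ← toE hgc hgR hq0, ENNReal.ofReal_rpow_of_nonneg hc hq0.le,
    ← ENNReal.ofReal_mul (by positivity)] at hd
  exact (ENNReal.ofReal_le_ofReal_iff (mul_nonneg (by positivity)
    (integral_nonneg fun x => by positivity))).1 hd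

end Pool.Agent.L5helper98.RD
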